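import Mathlib

open Polynomial intervalIntegral

namespace Pool.Agent.Lib.Pabc2

/-- `lcm(1..N) * ∫_0^1 P` is an integer for an integer polynomial of degree `< N`. -/
theorem exists_int_integral (P : ℤ[X]) (N : ℕ) (hN : P.natDegree < N) :
    ∃ m : ℤ, (m : ℝ) = (Nat.lcmUpto N : ℝ) * ∫ v in (0 : ℝ)..1, (P.map (Int.castRingHom ℝ)).eval v := by
  have h1 : ∀ v : ℝ, (P.map (Int.castRingHom ℝ)).eval v =
      ∑ i ∈ Finset.range N, (P.coeff i : ℝ) * v ^ i := by
    intro v
    rw [Polynomial.eval_eq_sum_range' (n := N)]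
    · simp [Polynomial.coeff_map]
    · exact lt_of_le_of_lt Polynomial.natDegree_map_le hN
  have h2 : ∫ v in (0 : ℝ)..1, (P.map (Int.castRingHom ℝ)).eval v =
      ∑ i ∈ Finset.range N, (P.coeff i : ℝ) * (1 / ((i : ℝ) + 1)) := by
    simp_rw [h1]
    rw [intervalIntegral.integral_finsetSum]
    · apply Finset.sum_congr rfl
      intro i _
      rw [intervalIntegral.integral_const_mul, integral_pow]
      simp
    · intro i _
      exact (continuous_const.mul (continuous_pow i)).intervalIntegrable _ _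
  rw [h2, Finset.mul_sum]
  have h3 : ∀ i ∈ Finset.range N, ∃ m : ℤ, (m : ℝ) = (Nat.lcmUpto N : ℝ) * ((P.coeff i : ℝ) * (1 / ((i : ℝ) + 1))) := by
    intro i hi
    have hd : (i + 1) ∣ Nat.lcmUpto N := by
      unfold Nat.lcmUpto
      exact Finset.dvd_lcm (f := id) (Finset.mem_Icc.mpr ⟨by omega, by simp at hi; omega⟩)
    obtain ⟨k, hk⟩ := hd
    refine ⟨P.coeff i * k, ?_⟩
    have : (Nat.lcmUpto N : ℝ) = ((i : ℝ) + 1) * k := by
      rw [hk]; push_cast; ring
    rw [this]
    have hi0 : ((i : ℝ) + 1) ≠ 0 := by positivity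
    push_cast
    field_simp
  choose! m hm using h3
  refine ⟨∑ i ∈ Finset.range N, m i, ?_⟩
  push_cast
  exact Finset.sum_congr rfl hm

theorem log_lcmUpto_le (N : ℕ) : Real.log (Nat.lcmUpto N) ≤ 6 * N := by
  rw [← Chebyshev.psi_eq_log_lcmUpto]
  have h := Chebyshev.psi_le_const_mul_self (x := (N : ℝ)) (by positivity)
  have h4 : Real.log 4 ≤ 2 := by
    have : (4 : ℝ) = 2 ^ 2 := by norm_num
    rw [this, Real.log_pow]
    have := Real.log_two_lt_d9
    push_cast
    linarith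
  refine h.trans ?_
  have : (0 : ℝ) ≤ N := by positivity
  nlinarith

theorem lcmUpto_le_exp (N : ℕ) : (Nat.lcmUpto N : ℝ) ≤ Real.exp (6 * N) := by
  have h := log_lcmUpto_le N
  have hpos : (0 : ℝ) < Nat.lcmUpto N := by exact_mod_cast Nat.lcmUpto_pos N
  rw [← Real.exp_log hpos]
  exact Real.exp_le_exp.mpr h

/-- the basic integrand. -/
noncomputable def F (r : ℕ) (x z u : ℝ) : ℝ := u ^ r * (u - x) ^ r * (z - u) ^ r

theorem F_cont (r : ℕ) (x z : ℝ) : Continuous (F r x z) := by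
  unfold F
  fun_prop

theorem int_X (r : ℕ) (x z : ℝ) :
    ∫ u in (0 : ℝ)..x, F r x z u = x ^ (2 * r + 1) * ∫ v in (0 : ℝ)..1, v ^ r * (v - 1) ^ r * (z - x * v) ^ r := by
  have h := intervalIntegral.smul_integral_comp_mul_left (a := 0) (b := 1) (F r x z) x
  simp only [mul_zero, mul_one, smul_eq_mul] at h
  rw [← h, ← intervalIntegral.integral_const_mul, ← intervalIntegral.integral_const_mul]
  congr 1
  ext v
  unfold F
  have : x * v - x = x * (v - 1) := by ring
  rw [this, mul_pow, mul_pow]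
  ring

theorem int_Z (r : ℕ) (x z : ℝ) :
    ∫ u in (0 : ℝ)..z, F r x z u = z ^ (2 * r + 1) * ∫ v in (0 : ℝ)..1, v ^ r * (1 - v) ^ r * (z * v - x) ^ r := by
  have h := intervalIntegral.smul_integral_comp_mul_left (a := 0) (b := 1) (F r x z) z
  simp only [mul_zero, mul_one, smul_eq_mul] at h
  rw [← h, ← intervalIntegral.integral_const_mul, ← intervalIntegral.integral_const_mul]
  congr 1
  ext v
  unfold F
  have : z - z * v = z * (1 - v) := by ring
  rw [this, mul_pow, mul_pow]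
  ring

theorem int_Y (r : ℕ) (x y z : ℝ) (hz : z = x + y) :
    ∫ u in x..z, F r x z u = y ^ (2 * r + 1) * ∫ v in (0 : ℝ)..1, v ^ r * (1 - v) ^ r * (x + y * v) ^ r := by
  have h := intervalIntegral.smul_integral_comp_add_mul (a := 0) (b := 1) (F r x z) y x
  simp only [mul_zero, mul_one, smul_eq_mul, add_zero] at h
  rw [← hz] at h
  rw [← h, ← intervalIntegral.integral_const_mul, ← intervalIntegral.integral_const_mul]
  congr 1
  ext v
  unfold F
  have e1 : x + y * v - x = y * v := by ring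
  have e2 : z - (x + y * v) = y * (1 - v) := by rw [hz]; ring
  rw [e1, e2, mul_pow, mul_pow]
  ring

theorem int_add (r : ℕ) (x z : ℝ) :
    (∫ u in (0 : ℝ)..x, F r x z u) + (∫ u in x..z, F r x z u) = ∫ u in (0 : ℝ)..z, F r x z u :=
  intervalIntegral.integral_add_adjacent_intervals
    ((F_cont r x z).intervalIntegrable _ _) ((F_cont r x z).intervalIntegrable _ _)

theorem integral_bounds (f : ℝ → ℝ) (hf : Continuous f) (B : ℝ)
    (hpos : ∀ v ∈ Set.Ioo (0 : ℝ) 1, 0 < f v) (hB : ∀ v ∈ Set.Icc (0 : ℝ) 1, f v ≤ B) :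
    0 < (∫ v in (0 : ℝ)..1, f v) ∧ (∫ v in (0 : ℝ)..1, f v) ≤ B := by
  constructor
  · exact intervalIntegral.intervalIntegral_pos_of_pos_on (hf.intervalIntegrable _ _) hpos one_pos
  · have hc : Continuous (fun _ : ℝ => B) := continuous_const
    have h := intervalIntegral.integral_mono_on (a := 0) (b := 1) (f := f) (g := fun _ => B)
      (μ := MeasureTheory.volume) zero_le_one
      (hf.intervalIntegrable _ _) (hc.intervalIntegrable _ _) hB
    simpa using h

/-- The auxiliary (Pade) triple: for odd `r` and positive integers `x, y` there are integers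
`p1 < 0 < p2` and `p3` with `x^(2r+1) p1 + y^(2r+1) p2 = (x+y)^(2r+1) p3`, of size at most
`exp(6(3r+1)) (x+y)^r`. -/
theorem pade (r : ℕ) (hr : Odd r) (x y : ℕ) (hx : 0 < x) (hy : 0 < y) :
    ∃ p1 p2 p3 : ℤ, (x : ℤ) ^ (2 * r + 1) * p1 + (y : ℤ) ^ (2 * r + 1) * p2 =
        ((x : ℤ) + y) ^ (2 * r + 1) * p3 ∧
      p1 < 0 ∧ 0 < p2 ∧
      (-(p1 : ℝ)) ≤ Real.exp (6 * (3 * r + 1)) * ((x : ℝ) + y) ^ r ∧
      (p2 : ℝ) ≤ Real.exp (6 * (3 * r + 1)) * ((x : ℝ) + y) ^ r := by
  have hx' : (0 : ℝ) < x := by exact_mod_cast hx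
  have hy' : (0 : ℝ) < y := by exact_mod_cast hy
  set z : ℝ := (x : ℝ) + y with hz
  -- the three polynomials
  set P1 : ℤ[X] := X ^ r * (X - C 1) ^ r * (C ((x : ℤ) + y) - C (x : ℤ) * X) ^ r with hP1
  set P2 : ℤ[X] := X ^ r * (C 1 - X) ^ r * (C (x : ℤ) + C (y : ℤ) * X) ^ r with hP2
  set P3 : ℤ[X] := X ^ r * (C 1 - X) ^ r * (C ((x : ℤ) + y) * X - C (x : ℤ)) ^ r with hP3
  have deg_aux : ∀ A B : ℤ[X], A.natDegree ≤ 1 → B.natDegree ≤ 1 →
      (X ^ r * A ^ r * B ^ r).natDegree < 3 * r + 1 := by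
    intro A B hA hB
    have h1 : (X ^ r * A ^ r * B ^ r : ℤ[X]).natDegree ≤ r + r * 1 + r * 1 := by
      refine (natDegree_mul_le).trans (add_le_add ((natDegree_mul_le).trans (add_le_add ?_ ?_)) ?_)
      · exact natDegree_X_pow_le r
      · exact (natDegree_pow_le).trans (Nat.mul_le_mul_left r hA)
      · exact (natDegree_pow_le).trans (Nat.mul_le_mul_left r hB)
    omega
  have d1 : P1.natDegree < 3 * r + 1 := by
    apply deg_aux
    · compute_degree
    · compute_degree
  have d2 : P2.natDegree < 3 * r + 1 := by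
    apply deg_aux
    · compute_degree
    · compute_degree
  have d3 : P3.natDegree < 3 * r + 1 := by
    apply deg_aux
    · compute_degree
    · compute_degree
  obtain ⟨p1, hp1⟩ := exists_int_integral P1 (3 * r + 1) d1
  obtain ⟨p2, hp2⟩ := exists_int_integral P2 (3 * r + 1) d2
  obtain ⟨p3, hp3⟩ := exists_int_integral P3 (3 * r + 1) d3
  have e1 : ∀ v : ℝ, (P1.map (Int.castRingHom ℝ)).eval v = v ^ r * (v - 1) ^ r * (z - x * v) ^ r := by
    intro v
    simp [hP1, hz]
  have e2 : ∀ v : ℝ, (P2.map (Int.castRingHom ℝ)).eval v = v ^ r * (1 - v) ^ r * (x + y * v) ^ r := by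
    intro v
    simp [hP2]
  have e3 : ∀ v : ℝ, (P3.map (Int.castRingHom ℝ)).eval v = v ^ r * (1 - v) ^ r * (z * v - x) ^ r := by
    intro v
    simp [hP3, hz]
  simp_rw [e1] at hp1
  simp_rw [e2] at hp2
  simp_rw [e3] at hp3
  set L : ℝ := (Nat.lcmUpto (3 * r + 1) : ℝ) with hL
  have hLpos : 0 < L := by
    rw [hL]; exact_mod_cast Nat.lcmUpto_pos _
  have hLle : L ≤ Real.exp (6 * (3 * r + 1)) := by
    have := lcmUpto_le_exp (3 * r + 1)
    push_cast at this
    exact this
  have hmain : (x : ℝ) ^ (2 * r + 1) * p1 + (y : ℝ) ^ (2 * r + 1) * p2 = z ^ (2 * r + 1) * p3 := by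
    have h := int_add r x z
    rw [int_X, int_Y r x y z hz, int_Z] at h
    rw [hp1, hp2, hp3]
    rw [← mul_assoc, ← mul_assoc, ← mul_assoc, mul_comm _ L, mul_comm _ L, mul_comm _ L, mul_assoc,
      mul_assoc, mul_assoc, ← mul_add, h]
  -- sign and size of p1
  have b1 := integral_bounds (fun v => -(v ^ r * (v - 1) ^ r * (z - x * v) ^ r)) (by fun_prop) (z ^ r)
    (by
      intro v hv
      have hv0 : 0 < v := hv.1
      have hv1 : v < 1 := hv.2
      have h1 : 0 < v ^ r := by positivity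
      have h2 : (v - 1) ^ r < 0 := hr.pow_neg (by linarith)
      have h3 : 0 < (z - x * v) ^ r := by
        apply pow_pos
        have : (x : ℝ) * v ≤ x := by nlinarith
        linarith
      have h4 : v ^ r * (v - 1) ^ r * (z - x * v) ^ r < 0 := by
        apply mul_neg_of_neg_of_pos _ h3
        exact mul_neg_of_pos_of_neg h1 h2
      linarith)
    (by
      intro v hv
      have hv0 : 0 ≤ v := hv.1
      have hv1 : v ≤ 1 := hv.2
      have h1 : |v ^ r| ≤ 1 := by
        rw [abs_pow, abs_of_nonneg hv0]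
        exact pow_le_one₀ hv0 hv1
      have h2 : |(v - 1) ^ r| ≤ 1 := by
        rw [abs_pow]
        apply pow_le_one₀ (abs_nonneg _)
        rw [abs_le]
        constructor <;> linarith
      have h3 : |(z - x * v) ^ r| ≤ z ^ r := by
        rw [abs_pow]
        apply pow_le_pow_left₀ (abs_nonneg _)
        rw [abs_le]
        constructor <;> nlinarith
      have h4 : |v ^ r * (v - 1) ^ r * (z - x * v) ^ r| ≤ 1 * 1 * z ^ r := by
        rw [abs_mul, abs_mul]
        gcongr
      have h5 := neg_abs_le (v ^ r * (v - 1) ^ r * (z - x * v) ^ r)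
      linarith)
  rw [intervalIntegral.integral_neg] at b1
  have b2 := integral_bounds (fun v => v ^ r * (1 - v) ^ r * (x + y * v) ^ r) (by fun_prop) (z ^ r)
    (by
      intro v hv
      have hv0 : 0 < v := hv.1
      have hv1 : v < 1 := hv.2
      have h2 : 0 < 1 - v := by linarith
      positivity)
    (by
      intro v hv
      have hv0 : 0 ≤ v := hv.1
      have hv1 : v ≤ 1 := hv.2
      have h1 : v ^ r ≤ 1 := pow_le_one₀ hv0 hv1
      have h2 : (1 - v) ^ r ≤ 1 := pow_le_one₀ (by linarith) (by linarith)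
      have h3 : (x + y * v) ^ r ≤ z ^ r := by
        apply pow_le_pow_left₀ (by positivity)
        nlinarith
      have h4 : 0 ≤ (1 - v) ^ r := pow_nonneg (by linarith) r
      calc v ^ r * (1 - v) ^ r * (x + y * v) ^ r ≤ 1 * 1 * z ^ r := by gcongr
        _ = z ^ r := by ring)
  refine ⟨p1, p2, p3, ?_, ?_, ?_, ?_, ?_⟩
  · have : (((x : ℤ) ^ (2 * r + 1) * p1 + (y : ℤ) ^ (2 * r + 1) * p2 : ℤ) : ℝ) =
        ((((x : ℤ) + y) ^ (2 * r + 1) * p3 : ℤ) : ℝ) := by
      push_cast
      exact hmain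
    exact_mod_cast this
  · have : (p1 : ℝ) < 0 := by
      rw [hp1]
      exact mul_neg_of_pos_of_neg hLpos (by linarith [b1.1])
    exact_mod_cast this
  · have : (0 : ℝ) < p2 := by
      rw [hp2]
      exact mul_pos hLpos b2.1
    exact_mod_cast this
  · rw [hp1, ← mul_neg]
    exact mul_le_mul hLle b1.2 b1.1.le (Real.exp_pos _).le
  · rw [hp2]
    exact mul_le_mul hLle b2.2 b2.1.le (Real.exp_pos _).le

end Pool.Agent.Lib.Pabc2
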