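import Mathlib
import Pool.Agent.Lib.Pabc2.Pade

open Finset

namespace Pool.Agent.Lib.Pabc2

/-- `t = (a, b)` with `0 < a ≤ b` coprime; the abc-triple is `(a, b, a + b)`. -/
def IsT (t : ℕ × ℕ) : Prop := 0 < t.1 ∧ t.1 ≤ t.2 ∧ Nat.Coprime t.1 t.2

/-- The product `abc`. -/
def N (t : ℕ × ℕ) : ℕ := t.1 * t.2 * (t.1 + t.2)

/-- Which of `a, b, c` is divisible by `p`. -/
def lab (t : ℕ × ℕ) (p : ℕ) : Fin 3 := if p ∣ t.1 then 0 else if p ∣ t.2 then 1 else 2

/-- The component of the triple with the given label. -/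
def comp (t : ℕ × ℕ) (l : Fin 3) : ℕ := if l = 0 then t.1 else if l = 1 then t.2 else t.1 + t.2

/-- exponent of `p` in `abc`. -/
def ex (t : ℕ × ℕ) (p : ℕ) : ℕ := (N t).factorization p

/-- logarithmic height. -/
noncomputable def ht (t : ℕ × ℕ) : ℝ := Real.log ((t.1 : ℝ) + t.2)

/-- normalised exponent. -/
noncomputable def u (t : ℕ × ℕ) (p : ℕ) : ℝ := (ex t p : ℝ) * Real.log p / ht t

/-- `log a / log c`. -/
noncomputable def al (t : ℕ × ℕ) : ℝ := Real.log t.1 / ht t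

theorem IsT.pos2 {t : ℕ × ℕ} (h : IsT t) : 0 < t.2 := lt_of_lt_of_le h.1 h.2.1

theorem IsT.N_ne {t : ℕ × ℕ} (h : IsT t) : N t ≠ 0 := by
  unfold N
  have := h.1
  have := h.pos2
  positivity

theorem comp_dvd {t : ℕ × ℕ} (h : IsT t) {p : ℕ} (hp : p.Prime) :
    p ^ ex t p ∣ comp t (lab t p) := by
  have ha : t.1 ≠ 0 := h.1.ne'
  have hb : t.2 ≠ 0 := h.pos2.ne'
  have hc : t.1 + t.2 ≠ 0 := by omega
  have hfac : ex t p = t.1.factorization p + t.2.factorization p + (t.1 + t.2).factorization p := by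
    unfold ex N
    rw [Nat.factorization_mul (mul_ne_zero ha hb) hc, Nat.factorization_mul ha hb]
    rfl
  have hcop := h.2.2
  by_cases h1 : p ∣ t.1
  · have h2 : ¬ p ∣ t.2 := fun h2 => hp.not_dvd_one (by
      have := Nat.dvd_gcd h1 h2
      rwa [hcop] at this)
    have h3 : ¬ p ∣ t.1 + t.2 := fun h3 => h2 ((Nat.dvd_add_right h1).mp h3)
    rw [hfac, Nat.factorization_eq_zero_of_not_dvd h2, Nat.factorization_eq_zero_of_not_dvd h3]
    simp only [lab, h1, if_true, comp, add_zero]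
    exact Nat.ordProj_dvd _ _
  · by_cases h2 : p ∣ t.2
    · have h3 : ¬ p ∣ t.1 + t.2 := fun h3 => h1 ((Nat.dvd_add_left h2).mp h3)
      rw [hfac, Nat.factorization_eq_zero_of_not_dvd h1, Nat.factorization_eq_zero_of_not_dvd h3]
      simp only [lab, h1, h2, if_true, if_false, comp, add_zero, zero_add]
      simp only [one_ne_zero, if_false]
      exact Nat.ordProj_dvd _ _
    · rw [hfac, Nat.factorization_eq_zero_of_not_dvd h1, Nat.factorization_eq_zero_of_not_dvd h2]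
      simp only [lab, h1, h2, if_false, comp, zero_add]
      have e1 : (2 : Fin 3) ≠ 0 := by decide
      have e2 : (2 : Fin 3) ≠ 1 := by decide
      simp only [e1, e2, if_false]
      exact Nat.ordProj_dvd _ _

theorem sum_log_le (S : Finset ℕ) (hS : ∀ p ∈ S, p.Prime) (m : ℕ → ℕ) (D : ℤ) (hD : D ≠ 0)
    (h : ∀ p ∈ S, ((p : ℤ) ^ m p) ∣ D) :
    ∑ p ∈ S, (m p : ℝ) * Real.log p ≤ Real.log |(D : ℝ)| := by
  have hdvd : (∏ p ∈ S, (p : ℤ) ^ m p) ∣ D := by
    apply Finset.prod_dvd_of_coprime _ h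
    intro p hp q hq hpq
    apply IsCoprime.pow
    rw [Nat.isCoprime_iff_coprime]
    exact (Nat.coprime_primes (hS p hp) (hS q hq)).mpr hpq
  have hle := Int.le_of_dvd (abs_pos.mpr hD) ((dvd_abs _ _).mpr hdvd)
  have hpos : (0 : ℝ) < ∏ p ∈ S, (p : ℝ) ^ m p := by
    apply Finset.prod_pos
    intro p hp
    have : (0 : ℝ) < p := by exact_mod_cast (hS p hp).pos
    positivity
  have hle' : (∏ p ∈ S, (p : ℝ) ^ m p) ≤ |(D : ℝ)| := by
    have : (((∏ p ∈ S, (p : ℤ) ^ m p : ℤ)) : ℝ) ≤ ((|D| : ℤ) : ℝ) := by exact_mod_cast hle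
    push_cast at this
    exact this
  have h2 := Real.log_le_log hpos hle'
  rw [Real.log_prod (fun p hp => by
    have : (0 : ℝ) < p := by exact_mod_cast (hS p hp).pos
    positivity)] at h2
  refine le_trans (le_of_eq ?_) h2
  apply Finset.sum_congr rfl
  intro p _
  rw [Real.log_pow]

/-- The determinant of `(X', Y')` with `(a2, b2)` is divisible by the common prime powers. -/
theorem dvd_det (k : ℕ) {t1 t2 : ℕ × ℕ} (h1 : IsT t1) (h2 : IsT t2) (p1 p2 p3 : ℤ)
    (hid : (t1.1 : ℤ) ^ k * p1 + (t1.2 : ℤ) ^ k * p2 = ((t1.1 : ℤ) + t1.2) ^ k * p3)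
    {p : ℕ} (hp : p.Prime) (hl : lab t1 p = lab t2 p) (m : ℕ) (hm1 : m ≤ k * ex t1 p)
    (hm2 : m ≤ ex t2 p) :
    ((p : ℤ) ^ m) ∣ (t1.1 : ℤ) ^ k * p1 * t2.2 - (t1.2 : ℤ) ^ k * p2 * t2.1 := by
  have c1 := comp_dvd h1 hp
  have c2 := comp_dvd h2 hp
  rw [← hl] at c2
  have c1' : p ^ m ∣ (comp t1 (lab t1 p)) ^ k := by
    refine (pow_dvd_pow p hm1).trans ?_
    rw [mul_comm, pow_mul]
    exact pow_dvd_pow_of_dvd c1 k
  have c2' : p ^ m ∣ comp t2 (lab t1 p) := (pow_dvd_pow p hm2).trans c2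
  have d1 : ((p : ℤ) ^ m) ∣ (comp t1 (lab t1 p) : ℤ) ^ k := by exact_mod_cast c1'
  have d2 : ((p : ℤ) ^ m) ∣ (comp t2 (lab t1 p) : ℤ) := by exact_mod_cast c2'
  generalize lab t1 p = l at d1 d2
  have hl3 : l = 0 ∨ l = 1 ∨ l = 2 := by omega
  rcases hl3 with rfl | rfl | rfl
  · simp only [comp, if_true] at d1 d2
    apply dvd_sub
    · exact Dvd.dvd.mul_right (Dvd.dvd.mul_right d1 _) _
    · exact Dvd.dvd.mul_left d2 _
  · simp only [comp, one_ne_zero, if_false, if_true] at d1 d2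
    apply dvd_sub
    · exact Dvd.dvd.mul_left d2 _
    · exact Dvd.dvd.mul_right (Dvd.dvd.mul_right d1 _) _
  · have e1 : (2 : Fin 3) ≠ 0 := by decide
    have e2 : (2 : Fin 3) ≠ 1 := by decide
    simp only [comp, e1, e2, if_false] at d1 d2
    push_cast at d1 d2
    have key : (t1.1 : ℤ) ^ k * p1 * t2.2 - (t1.2 : ℤ) ^ k * p2 * t2.1 =
        (t1.1 : ℤ) ^ k * p1 * (t2.1 + t2.2) - ((t1.1 : ℤ) + t1.2) ^ k * p3 * t2.1 := by
      rw [← hid]; ring
    rw [key]
    apply dvd_sub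
    · exact Dvd.dvd.mul_left d2 _
    · exact Dvd.dvd.mul_right (Dvd.dvd.mul_right d1 _) _

theorem sum_ex_log {t : ℕ × ℕ} (h : IsT t) :
    ∑ p ∈ (N t).primeFactors, (ex t p : ℝ) * Real.log p =
      Real.log t.1 + Real.log t.2 + ht t := by
  have ha : (t.1 : ℝ) ≠ 0 := by exact_mod_cast h.1.ne'
  have hb : (t.2 : ℝ) ≠ 0 := by exact_mod_cast h.pos2.ne'
  have hc : ((t.1 : ℝ) + t.2) ≠ 0 := by
    have : (0 : ℝ) < t.1 := by exact_mod_cast h.1
    have : (0 : ℝ) < t.2 := by exact_mod_cast h.pos2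
    positivity
  have e1 : Real.log (N t : ℝ) = Real.log t.1 + Real.log t.2 + ht t := by
    unfold N ht
    push_cast
    rw [Real.log_mul (mul_ne_zero ha hb) hc, Real.log_mul ha hb]
  rw [← e1]
  unfold ex
  conv_rhs => rw [← Nat.prod_factorization_pow_eq_self h.N_ne]
  rw [Finsupp.prod, Nat.cast_prod, Real.log_prod]
  · rw [Nat.support_factorization]
    apply Finset.sum_congr rfl
    intro p _
    push_cast
    rw [Real.log_pow]
  · intro p hp
    rw [Nat.support_factorization] at hp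
    exact Nat.cast_ne_zero.mpr (pow_ne_zero _ (Nat.prime_of_mem_primeFactors hp).ne_zero)

theorem ht_pos {t : ℕ × ℕ} (h : IsT t) : 0 < ht t := by
  unfold ht
  apply Real.log_pos
  have h1 : (1 : ℝ) ≤ t.1 := by exact_mod_cast h.1
  have h2 : (1 : ℝ) ≤ t.2 := by exact_mod_cast h.pos2
  linarith

theorem log_b_ge {t : ℕ × ℕ} (h : IsT t) : ht t - Real.log 2 ≤ Real.log t.2 := by
  have ha : (0 : ℝ) < t.1 := by exact_mod_cast h.1
  have hb : (0 : ℝ) < t.2 := by exact_mod_cast h.pos2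
  have hab : (t.1 : ℝ) ≤ t.2 := by exact_mod_cast h.2.1
  have : ht t ≤ Real.log (2 * t.2) := by
    unfold ht
    exact Real.log_le_log (by linarith) (by linarith)
  rw [Real.log_mul (by norm_num) hb.ne'] at this
  linarith

theorem log_b_le {t : ℕ × ℕ} (h : IsT t) : Real.log t.2 ≤ ht t := by
  have ha : (0 : ℝ) < t.1 := by exact_mod_cast h.1
  have hb : (0 : ℝ) < t.2 := by exact_mod_cast h.pos2
  unfold ht
  exact Real.log_le_log hb (by linarith)

theorem log_a_le {t : ℕ × ℕ} (h : IsT t) : Real.log t.1 ≤ ht t := by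
  have ha : (0 : ℝ) < t.1 := by exact_mod_cast h.1
  have hb : (0 : ℝ) < t.2 := by exact_mod_cast h.pos2
  unfold ht
  exact Real.log_le_log ha (by linarith)

theorem log_a_nonneg {t : ℕ × ℕ} (h : IsT t) : 0 ≤ Real.log t.1 :=
  Real.log_nonneg (by exact_mod_cast h.1)

theorem al_nonneg {t : ℕ × ℕ} (h : IsT t) : 0 ≤ al t :=
  div_nonneg (log_a_nonneg h) (ht_pos h).le

theorem al_le_one {t : ℕ × ℕ} (h : IsT t) : al t ≤ 1 :=
  (div_le_one (ht_pos h)).mpr (log_a_le h)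

theorem u_nonneg {t : ℕ × ℕ} (h : IsT t) (p : ℕ) : 0 ≤ u t p := by
  unfold u
  have := (ht_pos h).le
  have := Real.log_natCast_nonneg p
  positivity

/-- Two triples are close on the set of primes `S` (with parameter `1/100`), and the first one has
most of its mass on `S`. -/
structure Close (S : Finset ℕ) (t1 t2 : ℕ × ℕ) : Prop where
  h1 : IsT t1
  h2 : IsT t2
  prime : ∀ p ∈ S, p.Prime
  lab_eq : ∀ p ∈ S, lab t1 p = lab t2 p
  u_close : ∑ p ∈ S, |u t1 p - u t2 p| ≤ 1 / 100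
  al_close : |al t1 - al t2| ≤ 1 / 100
  mass : (Real.log t1.1 + Real.log t1.2 + ht t1) / ht t1 - 1 / 3 ≤ ∑ p ∈ S, u t1 p
  big : 1000 ≤ ht t1

/-- `∑ min(k e1, e2) log p` is large. -/
theorem Close.sum_min_ge {S : Finset ℕ} {t1 t2 : ℕ × ℕ} (h : Close S t1 t2) (k : ℕ)
    (hk : k * ht t1 ≤ ht t2) :
    (k : ℝ) * ht t1 * (2 + al t1 - Real.log 2 / ht t1 - 1 / 3 - 1 / 100) ≤
      ∑ p ∈ S, ((min (k * ex t1 p) (ex t2 p) : ℕ) : ℝ) * Real.log p := by
  have H1 := ht_pos h.h1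
  have H2 := ht_pos h.h2
  have hterm : ∀ p ∈ S, (k : ℝ) * ht t1 * (u t1 p - |u t1 p - u t2 p|) ≤
      ((min (k * ex t1 p) (ex t2 p) : ℕ) : ℝ) * Real.log p := by
    intro p hp
    have hlogp : 0 ≤ Real.log (p : ℝ) := Real.log_natCast_nonneg p
    have e1 : u t1 p * ht t1 = ex t1 p * Real.log p := by
      unfold u; field_simp
    have e2 : u t2 p * ht t2 = ex t2 p * Real.log p := by
      unfold u; field_simp
    have hmin : u t1 p - |u t1 p - u t2 p| ≤ min (u t1 p) (u t2 p) := by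
      apply le_min
      · have := abs_nonneg (u t1 p - u t2 p)
        linarith
      · have := le_abs_self (u t1 p - u t2 p)
        linarith
    have hmin1 : min (u t1 p) (u t2 p) ≤ u t1 p := min_le_left _ _
    have hmin2 : min (u t1 p) (u t2 p) ≤ u t2 p := min_le_right _ _
    have hmin0 : 0 ≤ min (u t1 p) (u t2 p) := le_min (u_nonneg h.h1 p) (u_nonneg h.h2 p)
    have hkh : 0 ≤ (k : ℝ) * ht t1 := by positivity
    rw [Nat.cast_min, min_mul_of_nonneg _ _ hlogp]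
    apply le_min
    · push_cast
      calc (k : ℝ) * ht t1 * (u t1 p - |u t1 p - u t2 p|) ≤ (k : ℝ) * ht t1 * u t1 p :=
            mul_le_mul_of_nonneg_left (hmin.trans hmin1) hkh
        _ = k * (u t1 p * ht t1) := by ring
        _ = (k : ℝ) * (ex t1 p) * Real.log p := by rw [e1]; ring
    · calc (k : ℝ) * ht t1 * (u t1 p - |u t1 p - u t2 p|) ≤ (k : ℝ) * ht t1 * min (u t1 p) (u t2 p) :=
            mul_le_mul_of_nonneg_left hmin hkh
        _ ≤ ht t2 * min (u t1 p) (u t2 p) := mul_le_mul_of_nonneg_right hk hmin0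
        _ ≤ ht t2 * u t2 p := mul_le_mul_of_nonneg_left hmin2 H2.le
        _ = u t2 p * ht t2 := by ring
        _ = (ex t2 p : ℝ) * Real.log p := e2
  refine le_trans ?_ (Finset.sum_le_sum hterm)
  rw [← Finset.mul_sum, Finset.sum_sub_distrib]
  apply mul_le_mul_of_nonneg_left _ (by positivity)
  have hm := h.mass
  have hu := h.u_close
  have hb := log_b_ge h.h1
  have : 2 + al t1 - Real.log 2 / ht t1 ≤ (Real.log t1.1 + Real.log t1.2 + ht t1) / ht t1 := by
    unfold al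
    rw [le_div_iff₀ H1]
    have e : (2 + Real.log t1.1 / ht t1 - Real.log 2 / ht t1) * ht t1 =
        2 * ht t1 + Real.log t1.1 - Real.log 2 := by field_simp
    rw [e]
    linarith
  linarith

theorem log_two_bd : Real.log 2 ≤ 7 / 10 := by
  have := Real.log_two_lt_d9
  linarith

theorem Close.al2_le {S : Finset ℕ} {t1 t2 : ℕ × ℕ} (h : Close S t1 t2) :
    Real.log t2.1 ≤ (al t1 + 1 / 100) * ht t2 := by
  have H2 := ht_pos h.h2
  have e : Real.log t2.1 = al t2 * ht t2 := by unfold al; field_simp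
  rw [e]
  apply mul_le_mul_of_nonneg_right _ H2.le
  have := (abs_le.mp h.al_close).1
  linarith

theorem Close.a1_eq {S : Finset ℕ} {t1 t2 : ℕ × ℕ} (h : Close S t1 t2) :
    Real.log t1.1 = al t1 * ht t1 := by
  have H1 := ht_pos h.h1
  unfold al; field_simp

/-- No two distinct close triples have comparable heights. -/
theorem Close.gap {S : Finset ℕ} {t1 t2 : ℕ × ℕ} (h : Close S t1 t2) (hne : t1 ≠ t2)
    (hle : ht t1 ≤ ht t2) (hle2 : ht t2 ≤ 3 / 2 * ht t1) : False := by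
  have H1 := ht_pos h.h1
  have H2 := ht_pos h.h2
  have hbig := h.big
  have a10 := h.h1.1
  have a20 := h.h2.1
  have b10 := h.h1.pos2
  have b20 := h.h2.pos2
  set D : ℤ := (t1.1 : ℤ) ^ 1 * 1 * t2.2 - (t1.2 : ℤ) ^ 1 * 1 * t2.1 with hD
  have hD0 : D ≠ 0 := by
    intro h0
    have h0' : t1.1 * t2.2 = t1.2 * t2.1 := by
      have : (t1.1 : ℤ) * t2.2 = (t1.2 : ℤ) * t2.1 := by rw [hD] at h0; linarith
      exact_mod_cast this
    have d1 : t1.1 ∣ t2.1 := by
      apply h.h1.2.2.dvd_of_dvd_mul_left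
      exact ⟨t2.2, h0'.symm⟩
    have d2 : t2.1 ∣ t1.1 := by
      apply h.h2.2.2.dvd_of_dvd_mul_right
      exact ⟨t1.2, by rw [h0']; ring⟩
    have e1 : t1.1 = t2.1 := Nat.dvd_antisymm d1 d2
    have e2 : t1.2 = t2.2 := by
      rw [e1, mul_comm] at h0'
      exact (Nat.eq_of_mul_eq_mul_right a20 h0').symm
    exact hne (Prod.ext e1 e2)
  have hdv : ∀ p ∈ S, ((p : ℤ) ^ (min (1 * ex t1 p) (ex t2 p))) ∣ D := by
    intro p hp
    exact dvd_det 1 h.h1 h.h2 1 1 1 (by push_cast; ring) (h.prime p hp) (h.lab_eq p hp) _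
      (min_le_left _ _) (min_le_right _ _)
  have hsum := sum_log_le S h.prime _ D hD0 hdv
  have hlow := h.sum_min_ge 1 (by simpa using hle)
  have hup : Real.log |(D : ℝ)| ≤ al t1 * ht t1 + ht t2 + 1 / 100 * ht t2 := by
    have hb1 := log_b_le h.h1
    have hb2 := log_b_le h.h2
    have ha2 := h.al2_le
    have ha1 := h.a1_eq
    have hal1 := al_le_one h.h1
    have ha10 : (0 : ℝ) < t1.1 := by exact_mod_cast a10
    have ha20 : (0 : ℝ) < t2.1 := by exact_mod_cast a20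
    have hb10 : (0 : ℝ) < t1.2 := by exact_mod_cast b10
    have hb20 : (0 : ℝ) < t2.2 := by exact_mod_cast b20
    have hDabs : |(D : ℝ)| ≤ max ((t1.1 : ℝ) * t2.2) ((t1.2 : ℝ) * t2.1) := by
      rw [hD]
      push_cast
      rw [abs_le]
      have h1 : (0 : ℝ) ≤ (t1.1 : ℝ) * t2.2 := by positivity
      have h2 : (0 : ℝ) ≤ (t1.2 : ℝ) * t2.1 := by positivity
      have h3 := le_max_left ((t1.1 : ℝ) * t2.2) ((t1.2 : ℝ) * t2.1)
      have h4 := le_max_right ((t1.1 : ℝ) * t2.2) ((t1.2 : ℝ) * t2.1)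
      constructor <;> linarith
    have hDpos : 0 < |(D : ℝ)| := abs_pos.mpr (by exact_mod_cast hD0)
    refine (Real.log_le_log hDpos hDabs).trans ?_
    have key : ∀ x : ℝ, 0 < x → Real.log x ≤ al t1 * ht t1 + ht t2 + 1 / 100 * ht t2 →
        x ≤ Real.exp (al t1 * ht t1 + ht t2 + 1 / 100 * ht t2) := by
      intro x hx hx2
      rw [← Real.exp_log hx]
      exact Real.exp_le_exp.mpr hx2
    rw [← Real.log_exp (al t1 * ht t1 + ht t2 + 1 / 100 * ht t2)]
    apply Real.log_le_log (lt_max_of_lt_left (by positivity))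
    apply max_le
    · apply key _ (by positivity)
      rw [Real.log_mul ha10.ne' hb20.ne']
      nlinarith
    · apply key _ (by positivity)
      rw [Real.log_mul hb10.ne' ha20.ne']
      nlinarith [mul_nonneg (sub_nonneg.mpr hle) (sub_nonneg.mpr hal1)]
  have hl2 := log_two_bd
  have e : ((1 : ℕ) : ℝ) * ht t1 * (2 + al t1 - Real.log 2 / ht t1 - 1 / 3 - 1 / 100) =
      2 * ht t1 + al t1 * ht t1 - Real.log 2 - 1 / 3 * ht t1 - 1 / 100 * ht t1 := by
    push_cast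
    field_simp
  rw [e] at hlow
  linarith

/-- No two close triples have heights of ratio at least `31`. -/
theorem Close.far {S : Finset ℕ} {t1 t2 : ℕ × ℕ} (h : Close S t1 t2)
    (hle : 31 * ht t1 ≤ ht t2) : False := by
  have H1 := ht_pos h.h1
  have H2 := ht_pos h.h2
  have hbig := h.big
  have a10 := h.h1.1
  have a20 := h.h2.1
  have b10 := h.h1.pos2
  have b20 := h.h2.pos2
  -- choose k
  set k : ℕ := ⌊(ht t2 / ht t1 - 3) / 4⌋₊ with hk
  have hlam : 31 ≤ ht t2 / ht t1 := by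
    rw [le_div_iff₀ H1]; exact hle
  have hk1 : (k : ℝ) ≤ (ht t2 / ht t1 - 3) / 4 := Nat.floor_le (by linarith)
  have hk2 : (ht t2 / ht t1 - 3) / 4 < k + 1 := Nat.lt_floor_add_one _
  have hk7 : 7 ≤ k := Nat.le_floor (by push_cast; linarith)
  have hk7' : (7 : ℝ) ≤ k := by exact_mod_cast hk7
  set r : ℕ := 2 * k + 1 with hr
  have hrodd : Odd r := ⟨k, hr⟩
  have hrR : (r : ℝ) = 2 * k + 1 := by rw [hr]; push_cast; ring
  have hr1 : (2 * (r : ℝ) + 1) * ht t1 ≤ ht t2 := by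
    rw [hrR, ← le_div_iff₀ H1]; linarith
  have hr2 : ht t2 ≤ (2 * (r : ℝ) + 5) * ht t1 := by
    rw [hrR, ← div_le_iff₀ H1]; linarith
  have hr15 : (15 : ℝ) ≤ r := by rw [hrR]; linarith
  obtain ⟨p1, p2, p3, hid, hp1, hp2, hs1, hs2⟩ := pade r hrodd t1.1 t1.2 a10 b10
  set D : ℤ := (t1.1 : ℤ) ^ (2 * r + 1) * p1 * t2.2 - (t1.2 : ℤ) ^ (2 * r + 1) * p2 * t2.1 with hD
  have ha1z : (0 : ℤ) < t1.1 := by exact_mod_cast a10
  have hb1z : (0 : ℤ) < t1.2 := by exact_mod_cast b10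
  have ha2z : (0 : ℤ) < t2.1 := by exact_mod_cast a20
  have hb2z : (0 : ℤ) < t2.2 := by exact_mod_cast b20
  have hDneg : D < 0 := by
    have h1 : (t1.1 : ℤ) ^ (2 * r + 1) * p1 * t2.2 < 0 :=
      mul_neg_of_neg_of_pos (mul_neg_of_pos_of_neg (pow_pos ha1z _) hp1) hb2z
    have h2 : 0 < (t1.2 : ℤ) ^ (2 * r + 1) * p2 * t2.1 := by positivity
    rw [hD]; linarith
  have hdv : ∀ p ∈ S, ((p : ℤ) ^ (min ((2 * r + 1) * ex t1 p) (ex t2 p))) ∣ D := by
    intro p hp
    exact dvd_det (2 * r + 1) h.h1 h.h2 p1 p2 p3 hid (h.prime p hp) (h.lab_eq p hp) _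
      (min_le_left _ _) (min_le_right _ _)
  have hsum := sum_log_le S h.prime _ D hDneg.ne hdv
  have hlow := h.sum_min_ge (2 * r + 1) (by push_cast; exact hr1)
  have ha10 : (0 : ℝ) < t1.1 := by exact_mod_cast a10
  have ha20 : (0 : ℝ) < t2.1 := by exact_mod_cast a20
  have hb10 : (0 : ℝ) < t1.2 := by exact_mod_cast b10
  have hb20 : (0 : ℝ) < t2.2 := by exact_mod_cast b20
  have hc10 : (0 : ℝ) < (t1.1 : ℝ) + t1.2 := by positivity
  set M : ℝ := (2 * r + 1) * (al t1 * ht t1) + ht t2 + 1 / 100 * ht t2 with hM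
  have hup : Real.log |(D : ℝ)| ≤ Real.log 2 + 6 * (3 * r + 1) + r * ht t1 + M := by
    have hb1 := log_b_le h.h1
    have hb2 := log_b_le h.h2
    have ha2 := h.al2_le
    have ha1 := h.a1_eq
    have hal1 := al_le_one h.h1
    have hal0 := al_nonneg h.h1
    have hDpos : 0 < |(D : ℝ)| := abs_pos.mpr (by exact_mod_cast hDneg.ne)
    have t1le : (t1.1 : ℝ) ^ (2 * r + 1) * t2.2 ≤ Real.exp M := by
      rw [← Real.exp_log (show (0 : ℝ) < (t1.1 : ℝ) ^ (2 * r + 1) * t2.2 by positivity)]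
      apply Real.exp_le_exp.mpr
      rw [Real.log_mul (by positivity) hb20.ne', Real.log_pow, ha1, hM]
      push_cast
      nlinarith
    have t2le : (t1.2 : ℝ) ^ (2 * r + 1) * t2.1 ≤ Real.exp M := by
      rw [← Real.exp_log (show (0 : ℝ) < (t1.2 : ℝ) ^ (2 * r + 1) * t2.1 by positivity)]
      apply Real.exp_le_exp.mpr
      rw [Real.log_mul (by positivity) ha20.ne', Real.log_pow, hM]
      push_cast
      have h3 : (2 * (r : ℝ) + 1) * Real.log t1.2 ≤ (2 * (r : ℝ) + 1) * ht t1 :=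
        mul_le_mul_of_nonneg_left hb1 (by positivity)
      have h4 : 0 ≤ (ht t2 - (2 * (r : ℝ) + 1) * ht t1) * (1 - al t1) :=
        mul_nonneg (by linarith) (by linarith)
      nlinarith
    have hE : (0 : ℝ) < Real.exp (6 * (3 * r + 1)) := Real.exp_pos _
    have hcr : ((t1.1 : ℝ) + t1.2) ^ r = Real.exp (r * ht t1) := by
      unfold ht
      rw [mul_comm, Real.exp_mul, Real.exp_log hc10, Real.rpow_natCast]
    rw [hcr] at hs1 hs2
    have hDle : |(D : ℝ)| ≤ 2 * (Real.exp (6 * (3 * r + 1)) * Real.exp (r * ht t1) * Real.exp M) := by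
      have hneg : (D : ℝ) < 0 := by exact_mod_cast hDneg
      rw [abs_of_neg hneg, hD]
      push_cast
      have h5 : (t1.1 : ℝ) ^ (2 * r + 1) * t2.2 * (-(p1 : ℝ)) ≤
          Real.exp M * (Real.exp (6 * (3 * r + 1)) * Real.exp (r * ht t1)) := by
        apply mul_le_mul t1le hs1 _ (Real.exp_pos _).le
        have : (p1 : ℝ) < 0 := by exact_mod_cast hp1
        linarith
      have h6 : (t1.2 : ℝ) ^ (2 * r + 1) * t2.1 * (p2 : ℝ) ≤
          Real.exp M * (Real.exp (6 * (3 * r + 1)) * Real.exp (r * ht t1)) := by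
        apply mul_le_mul t2le hs2 _ (Real.exp_pos _).le
        have : (0 : ℝ) < p2 := by exact_mod_cast hp2
        linarith
      calc -((t1.1 : ℝ) ^ (2 * r + 1) * p1 * t2.2 - (t1.2 : ℝ) ^ (2 * r + 1) * p2 * t2.1)
          = (t1.1 : ℝ) ^ (2 * r + 1) * t2.2 * (-(p1 : ℝ)) +
            (t1.2 : ℝ) ^ (2 * r + 1) * t2.1 * (p2 : ℝ) := by ring
        _ ≤ _ := add_le_add h5 h6
        _ = _ := by ring
    refine (Real.log_le_log hDpos hDle).trans (le_of_eq ?_)
    rw [Real.log_mul (by norm_num) (by positivity), Real.log_mul (by positivity) (by positivity),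
      Real.log_mul (by positivity) (by positivity), Real.log_exp, Real.log_exp, Real.log_exp]
    ring
  have hl2 := log_two_bd
  have e : ((2 * r + 1 : ℕ) : ℝ) * ht t1 * (2 + al t1 - Real.log 2 / ht t1 - 1 / 3 - 1 / 100) =
      (2 * r + 1) * (al t1 * ht t1) + (2 * r + 1) * (2 - 1 / 3 - 1 / 100) * ht t1
        - (2 * r + 1) * Real.log 2 := by
    push_cast
    field_simp
    ring
  rw [e] at hlow
  have hfin := hlow.trans (hsum.trans hup)
  rw [hM] at hfin
  have hL2 : (2 * (r : ℝ) + 1) * Real.log 2 ≤ (2 * (r : ℝ) + 1) * (7 / 10) :=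
    mul_le_mul_of_nonneg_left hl2 (by positivity)
  have hrh : 15 * ht t1 ≤ r * ht t1 := mul_le_mul_of_nonneg_right hr15 H1.le
  have hrb : 1000 * (r : ℝ) ≤ r * ht t1 := by nlinarith
  nlinarith

end Pool.Agent.Lib.Pabc2
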