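import Mathlib
import Pool.Agent.Lib.Pabc2.Gap

open Finset

namespace Pool.Agent.Lib.Pabc2

/-- A family of pairwise close triples has at most `9` members. -/
theorem card_le_nine (S : Finset ℕ) (F : Finset (ℕ × ℕ))
    (h : ∀ t1 ∈ F, ∀ t2 ∈ F, Close S t1 t2) : F.card ≤ 9 := by
  rcases F.eq_empty_or_nonempty with rfl | hne
  · simp
  obtain ⟨t0, ht0, hmin⟩ := Finset.exists_min_image F ht hne
  have H0 := ht_pos (h t0 ht0 t0 ht0).h1
  have hl32 : 0 < Real.log (3 / 2) := Real.log_pos (by norm_num)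
  set j : ℕ × ℕ → ℕ := fun t => ⌊Real.log (ht t / ht t0) / Real.log (3 / 2)⌋₊ with hj
  have hcard : (Finset.range 9).card = 9 := by simp
  rw [← hcard]
  apply Finset.card_le_card_of_injOn j
  · intro t htF
    have htF' : t ∈ F := htF
    simp only [Finset.coe_range, Set.mem_Iio, hj]
    have hlt : ht t < 31 * ht t0 := by
      by_contra hcon
      push Not at hcon
      exact (h t0 ht0 t htF').far hcon
    have hge := hmin t htF'
    have h1 : 1 ≤ ht t / ht t0 := (one_le_div H0).mpr hge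
    rw [Nat.floor_lt (div_nonneg (Real.log_nonneg h1) hl32.le), div_lt_iff₀ hl32]
    have h2 : ht t / ht t0 < 31 := (div_lt_iff₀ H0).mpr hlt
    have h3 : Real.log (ht t / ht t0) < Real.log 31 := Real.log_lt_log (by linarith) h2
    have h4 : Real.log 31 < ((9 : ℕ) : ℝ) * Real.log (3 / 2) := by
      rw [← Real.log_pow]
      exact Real.log_lt_log (by norm_num) (by norm_num)
    linarith
  · -- injectivity
    have key : ∀ t ∈ F, ∀ t' ∈ F, j t = j t' → ht t ≤ ht t' → t = t' := by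
      intro t htF t' htF' hjj hle
      by_contra hne'
      have hc := h t htF t' htF'
      have Ht := ht_pos hc.h1
      have Ht' := ht_pos hc.h2
      apply hc.gap hne' hle
      have hr1 : 1 ≤ ht t / ht t0 := (one_le_div H0).mpr (hmin t htF)
      have hr2 : 1 ≤ ht t' / ht t0 := (one_le_div H0).mpr (hmin t' htF')
      have e1 : (j t : ℝ) ≤ Real.log (ht t / ht t0) / Real.log (3 / 2) :=
        Nat.floor_le (div_nonneg (Real.log_nonneg hr1) hl32.le)
      have e2 : Real.log (ht t' / ht t0) / Real.log (3 / 2) < j t' + 1 := Nat.lt_floor_add_one _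
      rw [← hjj] at e2
      have e3 : Real.log (ht t' / ht t0) / Real.log (3 / 2) <
          Real.log (ht t / ht t0) / Real.log (3 / 2) + 1 := by linarith
      have e4 : Real.log (ht t' / ht t0) < Real.log (ht t / ht t0) + Real.log (3 / 2) := by
        rw [div_lt_iff₀ hl32] at e3
        have : (Real.log (ht t / ht t0) / Real.log (3 / 2) + 1) * Real.log (3 / 2) =
            Real.log (ht t / ht t0) + Real.log (3 / 2) := by field_simp
        linarith
      rw [← Real.log_mul (by positivity) (by norm_num)] at e4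
      have e5 := (Real.log_lt_log_iff (by positivity) (by positivity)).mp e4
      rw [div_mul_eq_mul_div, div_lt_div_iff_of_pos_right H0] at e5
      linarith
    intro t htF t' htF' hjj
    rcases le_total (ht t) (ht t') with hle | hle
    · exact key t htF t' htF' hjj hle
    · exact (key t' htF' t htF hjj.symm hle).symm

/-- Data attached to a triple: the set `S` carries most of the mass. -/
structure Good (S : Finset ℕ) (t : ℕ × ℕ) : Prop where
  h : IsT t
  sub : S ⊆ (N t).primeFactors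
  mass : (Real.log t.1 + Real.log t.2 + ht t) / ht t - 1 / 3 ≤ ∑ p ∈ S, u t p
  big : 1000 ≤ ht t

/-- the code of a triple on `S`. -/
noncomputable def code (S : Finset ℕ) (t : ℕ × ℕ) : ((p : ℕ) → p ∈ S → Fin 3 × ℕ) × ℕ :=
  (fun p _ => (lab t p, ⌊u t p * (100 * S.card)⌋₊), ⌊al t * 100⌋₊)

theorem abs_sub_le_of_floor_eq {x y m : ℝ} (hx : 0 ≤ x) (hy : 0 ≤ y) (hm : 0 < m)
    (h : ⌊x * m⌋₊ = ⌊y * m⌋₊) : |x - y| ≤ 1 / m := by
  have h1 := Nat.floor_le (mul_nonneg hx hm.le)
  have h2 := Nat.lt_floor_add_one (x * m)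
  have h3 := Nat.floor_le (mul_nonneg hy hm.le)
  have h4 := Nat.lt_floor_add_one (y * m)
  rw [h] at h1 h2
  have h5 : |x - y| * m ≤ 1 := by
    have e : |x - y| * m = |(x - y) * m| := by rw [abs_mul, abs_of_pos hm]
    rw [e, abs_le]
    constructor <;> nlinarith
  rw [le_div_iff₀ hm]
  exact h5

theorem close_of_code {S : Finset ℕ} {t1 t2 : ℕ × ℕ} (g1 : Good S t1) (g2 : Good S t2)
    (hc : code S t1 = code S t2) : Close S t1 t2 := by
  have hc1 := congrArg Prod.fst hc
  have hc2 := congrArg Prod.snd hc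
  simp only [code] at hc1 hc2
  have hpt : ∀ p (hp : p ∈ S), lab t1 p = lab t2 p ∧
      ⌊u t1 p * (100 * S.card)⌋₊ = ⌊u t2 p * (100 * S.card)⌋₊ := by
    intro p hp
    have := congrFun (congrFun hc1 p) hp
    exact Prod.ext_iff.mp this
  refine ⟨g1.h, g2.h, fun p hp => Nat.prime_of_mem_primeFactors (g1.sub hp),
    fun p hp => (hpt p hp).1, ?_, ?_, g1.mass, g1.big⟩
  · rcases S.eq_empty_or_nonempty with rfl | hne
    · simp
    · have hcard : (0 : ℝ) < S.card := by exact_mod_cast hne.card_pos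
      calc ∑ p ∈ S, |u t1 p - u t2 p| ≤ ∑ _p ∈ S, 1 / (100 * (S.card : ℝ)) := by
            apply Finset.sum_le_sum
            intro p hp
            exact abs_sub_le_of_floor_eq (u_nonneg g1.h p) (u_nonneg g2.h p) (by positivity)
              (hpt p hp).2
        _ = 1 / 100 := by
            rw [Finset.sum_const, nsmul_eq_mul]
            field_simp
  · exact abs_sub_le_of_floor_eq (al_nonneg g1.h) (al_nonneg g2.h) (by norm_num) hc2

theorem sum_u_le {S : Finset ℕ} {t : ℕ × ℕ} (h : IsT t) (sub : S ⊆ (N t).primeFactors) :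
    ∑ p ∈ S, u t p ≤ 3 := by
  have H := ht_pos h
  have h1 : ∑ p ∈ S, u t p ≤ ∑ p ∈ (N t).primeFactors, u t p :=
    Finset.sum_le_sum_of_subset_of_nonneg sub (fun p _ _ => u_nonneg h p)
  have h2 : ∑ p ∈ (N t).primeFactors, u t p = (Real.log t.1 + Real.log t.2 + ht t) / ht t := by
    rw [← sum_ex_log h, Finset.sum_div]
    rfl
  rw [h2] at h1
  refine h1.trans ?_
  rw [div_le_iff₀ H]
  have := log_a_le h
  have := log_b_le h
  linarith

/-- The constant. -/
noncomputable def Acon : ℝ := 6 * 2 ^ 300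

theorem geom_le (M : ℕ) : ∑ v ∈ Finset.range (M + 1), ((1 : ℝ) / 2) ^ v ≤ 2 := by
  rw [geom_sum_eq (by norm_num)]
  have : (0 : ℝ) < (1 / 2) ^ (M + 1) := by positivity
  rw [div_le_iff_of_neg (by norm_num)]
  linarith

/-- Number of labelled exponent vectors with bounded sum. -/
theorem card_codes_le (S : Finset ℕ) (C : Finset ((p : ℕ) → p ∈ S → Fin 3 × ℕ))
    (hC : ∀ f ∈ C, ∑ x ∈ S.attach, (f x.1 x.2).2 ≤ 300 * S.card) :
    (C.card : ℝ) ≤ Acon ^ S.card := by
  classical
  set M := 300 * S.card with hM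
  have hsub : C ⊆ S.pi (fun _ => (Finset.univ : Finset (Fin 3)) ×ˢ Finset.range (M + 1)) := by
    intro f hf
    rw [Finset.mem_pi]
    intro p hp
    rw [Finset.mem_product]
    refine ⟨Finset.mem_univ _, ?_⟩
    rw [Finset.mem_range]
    have h1 := hC f hf
    have h2 : (f p hp).2 ≤ ∑ x ∈ S.attach, (f x.1 x.2).2 :=
      Finset.single_le_sum (f := fun x : {x // x ∈ S} => (f x.1 x.2).2) (fun _ _ => Nat.zero_le _)
        (Finset.mem_attach S ⟨p, hp⟩)
    omega
  have h1 : (C.card : ℝ) ≤ ∑ f ∈ C, (2 : ℝ) ^ M * ∏ x ∈ S.attach, ((1 : ℝ) / 2) ^ (f x.1 x.2).2 := by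
    rw [Finset.card_eq_sum_ones, Nat.cast_sum]
    apply Finset.sum_le_sum
    intro f hf
    have h3 : ∏ x ∈ S.attach, ((1 : ℝ) / 2) ^ (f x.1 x.2).2 =
        ((1 : ℝ) / 2) ^ (∑ x ∈ S.attach, (f x.1 x.2).2) := by
      rw [Finset.prod_pow_eq_pow_sum]
    rw [h3]
    have h4 : ((1 : ℝ) / 2) ^ M ≤ ((1 : ℝ) / 2) ^ (∑ x ∈ S.attach, (f x.1 x.2).2) :=
      pow_le_pow_of_le_one (by norm_num) (by norm_num) (hC f hf)
    have h5 : (2 : ℝ) ^ M * ((1 : ℝ) / 2) ^ M = 1 := by
      rw [← mul_pow]; norm_num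
    have h6 : (0 : ℝ) < 2 ^ M := by positivity
    push_cast
    nlinarith
  have h2 : ∑ f ∈ C, (2 : ℝ) ^ M * ∏ x ∈ S.attach, ((1 : ℝ) / 2) ^ (f x.1 x.2).2 ≤
      ∑ f ∈ S.pi (fun _ => (Finset.univ : Finset (Fin 3)) ×ˢ Finset.range (M + 1)),
        (2 : ℝ) ^ M * ∏ x ∈ S.attach, ((1 : ℝ) / 2) ^ (f x.1 x.2).2 := by
    apply Finset.sum_le_sum_of_subset_of_nonneg hsub
    intro f _ _
    positivity
  have h3 : ∑ f ∈ S.pi (fun _ => (Finset.univ : Finset (Fin 3)) ×ˢ Finset.range (M + 1)),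
        (2 : ℝ) ^ M * ∏ x ∈ S.attach, ((1 : ℝ) / 2) ^ (f x.1 x.2).2 =
      (2 : ℝ) ^ M * ∏ _p ∈ S, ∑ lv ∈ (Finset.univ : Finset (Fin 3)) ×ˢ Finset.range (M + 1),
        ((1 : ℝ) / 2) ^ lv.2 := by
    rw [← Finset.mul_sum]
    congr 1
    rw [Finset.prod_sum]
  have h4 : ∑ lv ∈ (Finset.univ : Finset (Fin 3)) ×ˢ Finset.range (M + 1), ((1 : ℝ) / 2) ^ lv.2 ≤ 6 := by
    rw [Finset.sum_product]
    simp only
    rw [Finset.sum_const]
    simp only [Finset.card_univ, Fintype.card_fin, nsmul_eq_mul]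
    have := geom_le M
    push_cast
    linarith
  have h5 : ∏ _p ∈ S, ∑ lv ∈ (Finset.univ : Finset (Fin 3)) ×ˢ Finset.range (M + 1),
        ((1 : ℝ) / 2) ^ lv.2 ≤ 6 ^ S.card := by
    rw [Finset.prod_const]
    apply pow_le_pow_left₀ _ h4
    apply Finset.sum_nonneg
    intro lv _
    positivity
  calc (C.card : ℝ) ≤ _ := h1
    _ ≤ _ := h2
    _ = _ := h3
    _ ≤ (2 : ℝ) ^ M * 6 ^ S.card := mul_le_mul_of_nonneg_left h5 (by positivity)
    _ = Acon ^ S.card := by
        rw [hM, pow_mul, ← mul_pow]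
        unfold Acon
        rw [mul_comm]

/-- Triples that are good on a given set `S`: at most `909 * Acon ^ |S|`. -/
theorem card_good_le (S : Finset ℕ) (T : Finset (ℕ × ℕ)) (hT : ∀ t ∈ T, Good S t) :
    (T.card : ℝ) ≤ 909 * Acon ^ S.card := by
  classical
  have h1 : T.card ≤ 9 * (T.image (code S)).card := by
    apply Finset.card_le_mul_card_image
    intro c _
    apply card_le_nine S
    intro t1 ht1 t2 ht2
    rw [Finset.mem_filter] at ht1 ht2
    exact close_of_code (hT t1 ht1.1) (hT t2 ht2.1) (ht1.2.trans ht2.2.symm)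
  set C1 := (T.image (code S)).image Prod.fst with hC1
  have h2 : T.image (code S) ⊆ C1 ×ˢ Finset.range 101 := by
    intro c hc
    rw [Finset.mem_product]
    refine ⟨Finset.mem_image_of_mem _ hc, ?_⟩
    rw [Finset.mem_image] at hc
    obtain ⟨t, ht, rfl⟩ := hc
    simp only [code, Finset.mem_range]
    have ha := al_le_one (hT t ht).h
    have ha0 := al_nonneg (hT t ht).h
    have : ⌊al t * 100⌋₊ ≤ 100 := by
      apply Nat.floor_le_of_le
      push_cast
      linarith
    omega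
  have h3 : (T.image (code S)).card ≤ C1.card * 101 := by
    have := Finset.card_le_card h2
    rwa [Finset.card_product, Finset.card_range] at this
  have h4 : (C1.card : ℝ) ≤ Acon ^ S.card := by
    apply card_codes_le
    intro f hf
    rw [hC1, Finset.mem_image] at hf
    obtain ⟨c, hc, rfl⟩ := hf
    rw [Finset.mem_image] at hc
    obtain ⟨t, ht, rfl⟩ := hc
    simp only [code]
    rw [Finset.sum_attach S (fun p => ⌊u t p * (100 * S.card)⌋₊)]
    have hu := sum_u_le (hT t ht).h (hT t ht).sub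
    have h5 : ((∑ p ∈ S, ⌊u t p * (100 * S.card)⌋₊ : ℕ) : ℝ) ≤ 300 * S.card := by
      push_cast
      calc ∑ p ∈ S, (⌊u t p * (100 * S.card)⌋₊ : ℝ) ≤ ∑ p ∈ S, u t p * (100 * S.card) := by
            apply Finset.sum_le_sum
            intro p _
            apply Nat.floor_le
            have := u_nonneg (hT t ht).h p
            positivity
        _ = (∑ p ∈ S, u t p) * (100 * S.card) := by rw [Finset.sum_mul]
        _ ≤ 3 * (100 * S.card) := by gcongr
        _ = 300 * S.card := by ring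
    exact_mod_cast h5
  have h6 : (T.card : ℝ) ≤ 9 * (C1.card * 101) := by
    exact_mod_cast h1.trans (Nat.mul_le_mul_left 9 h3)
  linarith

end Pool.Agent.Lib.Pabc2
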