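import Mathlib

open Finset

namespace Pool.Agent.Lib.Pabc2

/-- `∑_{2^m < p ≤ 2^(m+1)} 1/p ≤ 4/m`. -/
theorem dyadic_block (m : ℕ) (hm : 1 ≤ m) :
    ∑ p ∈ (Nat.primesLE (2 ^ (m + 1))) \ (Nat.primesLE (2 ^ m)), 1 / (p : ℝ) ≤ 4 / m := by
  have hl2 : 0 < Real.log 2 := Real.log_pos (by norm_num)
  have hm' : (0 : ℝ) < m := by exact_mod_cast hm
  have h1 : ∀ p ∈ (Nat.primesLE (2 ^ (m + 1))) \ (Nat.primesLE (2 ^ m)),
      1 / (p : ℝ) ≤ 1 / (2 ^ m * (m * Real.log 2)) * Real.log p := by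
    intro p hp
    rw [Finset.mem_sdiff, Nat.mem_primesLE, Nat.mem_primesLE] at hp
    have hpr := hp.1.2
    have hgt : 2 ^ m < p := by
      by_contra hcon
      push Not at hcon
      exact hp.2 ⟨hcon, hpr⟩
    have hgt' : (2 : ℝ) ^ m < p := by exact_mod_cast hgt
    have hlog : m * Real.log 2 ≤ Real.log p := by
      rw [← Real.log_pow]
      exact Real.log_le_log (by positivity) hgt'.le
    have h2 : 1 / (p : ℝ) ≤ 1 / 2 ^ m := one_div_le_one_div_of_le (by positivity) hgt'.le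
    calc 1 / (p : ℝ) ≤ 1 / 2 ^ m := h2
      _ = 1 / (2 ^ m * (m * Real.log 2)) * (m * Real.log 2) := by field_simp
      _ ≤ _ := by gcongr
  calc ∑ p ∈ (Nat.primesLE (2 ^ (m + 1))) \ (Nat.primesLE (2 ^ m)), 1 / (p : ℝ)
      ≤ ∑ p ∈ (Nat.primesLE (2 ^ (m + 1))) \ (Nat.primesLE (2 ^ m)),
        1 / (2 ^ m * (m * Real.log 2)) * Real.log p := Finset.sum_le_sum h1
    _ ≤ ∑ p ∈ Nat.primesLE (2 ^ (m + 1)), 1 / (2 ^ m * (m * Real.log 2)) * Real.log p := by
        apply Finset.sum_le_sum_of_subset_of_nonneg Finset.sdiff_subset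
        intro p _ _
        have := Real.log_natCast_nonneg p
        positivity
    _ = 1 / (2 ^ m * (m * Real.log 2)) * Chebyshev.theta ((2 ^ (m + 1) : ℕ) : ℝ) := by
        rw [Chebyshev.theta_eq_sum_primesLE_log, Finset.mul_sum]
    _ ≤ 1 / (2 ^ m * (m * Real.log 2)) * (Real.log 4 * ((2 ^ (m + 1) : ℕ) : ℝ)) := by
        apply mul_le_mul_of_nonneg_left (Chebyshev.theta_le_log4_mul_x (by positivity))
        positivity
    _ = 4 / m := by
        have : Real.log 4 = 2 * Real.log 2 := by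
          have : (4 : ℝ) = 2 ^ 2 := by norm_num
          rw [this, Real.log_pow]; push_cast; ring
        rw [this]
        push_cast
        field_simp
        ring

theorem mertens_pow (m : ℕ) : ∑ p ∈ Nat.primesLE (2 ^ (m + 1)), 1 / (p : ℝ) ≤
    1 / 2 + 4 * ∑ i ∈ Finset.range m, 1 / ((i : ℝ) + 1) := by
  induction m with
  | zero =>
    have : Nat.primesLE (2 ^ (0 + 1)) = {2} := by decide
    rw [this]
    simp
  | succ m ih =>
    have hsub : Nat.primesLE (2 ^ (m + 1)) ⊆ Nat.primesLE (2 ^ (m + 1 + 1)) :=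
      Nat.primesLE_mono (Nat.pow_le_pow_right (by norm_num) (by omega))
    rw [← Finset.sum_sdiff hsub]
    have h := dyadic_block (m + 1) (by omega)
    rw [Finset.sum_range_succ]
    push_cast at h
    have e : 4 * (∑ x ∈ Finset.range m, 1 / ((x : ℝ) + 1) + 1 / ((m : ℝ) + 1)) =
        4 * (∑ x ∈ Finset.range m, 1 / ((x : ℝ) + 1)) + 4 / ((m : ℝ) + 1) := by ring
    rw [e]
    linarith

theorem harm_le (m : ℕ) (hm : 1 ≤ m) : ∑ i ∈ Finset.range m, 1 / ((i : ℝ) + 1) ≤ 1 + Real.log m := by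
  have h := harmonic_le_one_add_log m
  unfold harmonic at h
  push_cast at h
  refine le_trans (le_of_eq ?_) h
  apply Finset.sum_congr rfl
  intro i _
  rw [one_div]

/-- A Mertens-type upper bound. -/
theorem mertens (n : ℕ) : ∑ p ∈ Nat.primesLE n, 1 / (p : ℝ) ≤ 9 * (1 + Real.log (1 + Real.log n)) := by
  have hlogn : 0 ≤ Real.log n := Real.log_natCast_nonneg n
  have hrhs : 0 ≤ Real.log (1 + Real.log n) := Real.log_nonneg (by linarith)
  rcases Nat.lt_or_ge n 2 with hn | hn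
  · have : Nat.primesLE n = ∅ := by
      interval_cases n <;> simp
    rw [this]
    simp only [Finset.sum_empty]
    linarith
  have hl2 : 0 < Real.log 2 := Real.log_pos (by norm_num)
  set m := Nat.log 2 n with hm
  have hm1 : 1 ≤ m := by
    rw [hm]
    exact (Nat.le_log_iff_pow_le (by norm_num) (by omega)).mpr (by simpa using hn)
  have hle : n ≤ 2 ^ (m + 1) := (Nat.lt_pow_succ_log_self (by norm_num) n).le
  have h1 : ∑ p ∈ Nat.primesLE n, 1 / (p : ℝ) ≤ ∑ p ∈ Nat.primesLE (2 ^ (m + 1)), 1 / (p : ℝ) :=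
    Finset.sum_le_sum_of_subset_of_nonneg (Nat.primesLE_mono hle) (fun p _ _ => by positivity)
  have h2 := mertens_pow m
  have h3 := harm_le m hm1
  have hmpos : (0 : ℝ) < m := by exact_mod_cast hm1
  have hmlog : (m : ℝ) * Real.log 2 ≤ Real.log n := by
    rw [← Real.log_pow]
    apply Real.log_le_log (by positivity)
    have := Nat.pow_log_le_self 2 (x := n) (by omega)
    exact_mod_cast this
  have hl2' : 1 / 2 < Real.log 2 := by
    have := Real.log_two_gt_d9
    linarith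
  have hm2 : (m : ℝ) ≤ 2 * (1 + Real.log n) := by nlinarith
  have h4 : Real.log m ≤ Real.log 2 + Real.log (1 + Real.log n) := by
    rw [← Real.log_mul (by norm_num) (by linarith)]
    exact Real.log_le_log hmpos hm2
  have hl2'' : Real.log 2 ≤ 7 / 10 := by
    have := Real.log_two_lt_d9
    linarith
  linarith

/-- number of primes in `(w, W]` is at most `log 4 * W / log w`. -/
theorem card_primes_le (P : Finset ℕ) (hP : ∀ p ∈ P, p.Prime) (w W : ℝ) (hw : 1 < w)
    (h1 : ∀ p ∈ P, w < p) (h2 : ∀ p ∈ P, (p : ℝ) ≤ W) (hW : 0 ≤ W) :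
    (P.card : ℝ) ≤ 2 * W / Real.log w := by
  have hlw : 0 < Real.log w := Real.log_pos hw
  rw [le_div_iff₀ hlw]
  calc (P.card : ℝ) * Real.log w = ∑ _p ∈ P, Real.log w := by rw [Finset.sum_const, nsmul_eq_mul]
    _ ≤ ∑ p ∈ P, Real.log p := Finset.sum_le_sum (fun p hp =>
        Real.log_le_log (by linarith) (h1 p hp).le)
    _ ≤ ∑ p ∈ Nat.primesLE ⌊W⌋₊, Real.log p := by
        apply Finset.sum_le_sum_of_subset_of_nonneg
        · intro p hp
          rw [Nat.mem_primesLE]
          exact ⟨Nat.le_floor (h2 p hp), hP p hp⟩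
        · intro p _ _
          exact Real.log_natCast_nonneg p
    _ = Chebyshev.theta W := (Chebyshev.theta_eq_sum_primesLE W).symm
    _ ≤ Real.log 4 * W := Chebyshev.theta_le_log4_mul_x hW
    _ ≤ 2 * W := by
        apply mul_le_mul_of_nonneg_right _ hW
        have : (4 : ℝ) = 2 ^ 2 := by norm_num
        rw [this, Real.log_pow]
        have := Real.log_two_lt_d9
        push_cast
        linarith

end Pool.Agent.Lib.Pabc2
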