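import Mathlib
import Pool.Agent.Lib.Pabc2.Mertens

open Finset

namespace Pool.Agent.Lib.Pabc2

theorem sum_powerset_le_exp (P : Finset ℕ) (g : ℕ → ℝ) (hg : ∀ p ∈ P, 0 ≤ g p) :
    ∑ S ∈ P.powerset, ∏ p ∈ S, g p ≤ Real.exp (∑ p ∈ P, g p) := by
  rw [← Finset.prod_one_add, Real.exp_sum]
  apply Finset.prod_le_prod
  · intro p hp
    have := hg p hp
    linarith
  · intro p _
    rw [add_comm]
    exact Real.add_one_le_exp _

/-- `∑_{S ⊆ P, ∏ S ≤ W} A^|S| ≤ W exp(A ∑ 1/p)`. -/
theorem sum_small (P : Finset ℕ) (hP : ∀ p ∈ P, p.Prime) (A W : ℝ) (hA : 0 ≤ A) (hW : 0 ≤ W) :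
    ∑ S ∈ P.powerset.filter (fun S => ((∏ p ∈ S, p : ℕ) : ℝ) ≤ W), A ^ S.card ≤
      W * Real.exp (A * ∑ p ∈ P, 1 / (p : ℝ)) := by
  have h1 : ∀ S ∈ P.powerset.filter (fun S => ((∏ p ∈ S, p : ℕ) : ℝ) ≤ W),
      A ^ S.card ≤ W * ∏ p ∈ S, (A * (1 / (p : ℝ))) := by
    intro S hS
    rw [Finset.mem_filter, Finset.mem_powerset] at hS
    have hpos : (0 : ℝ) < ∏ p ∈ S, (p : ℝ) := by
      apply Finset.prod_pos
      intro p hp
      exact_mod_cast (hP p (hS.1 hp)).pos
    have h2 : ∏ p ∈ S, (A * (1 / (p : ℝ))) = A ^ S.card / ∏ p ∈ S, (p : ℝ) := by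
      rw [Finset.prod_mul_distrib, Finset.prod_const, Finset.prod_div_distrib]
      simp
      rfl
    rw [h2, mul_div_assoc', le_div_iff₀ hpos, mul_comm]
    have h3 := hS.2
    push_cast at h3
    exact mul_le_mul_of_nonneg_right h3 (by positivity)
  calc ∑ S ∈ P.powerset.filter (fun S => ((∏ p ∈ S, p : ℕ) : ℝ) ≤ W), A ^ S.card
      ≤ ∑ S ∈ P.powerset.filter (fun S => ((∏ p ∈ S, p : ℕ) : ℝ) ≤ W),
        W * ∏ p ∈ S, (A * (1 / (p : ℝ))) := Finset.sum_le_sum h1
    _ ≤ ∑ S ∈ P.powerset, W * ∏ p ∈ S, (A * (1 / (p : ℝ))) := by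
        apply Finset.sum_le_sum_of_subset_of_nonneg (Finset.filter_subset _ _)
        intro S _ _
        apply mul_nonneg hW
        apply Finset.prod_nonneg
        intro p _
        positivity
    _ = W * ∑ S ∈ P.powerset, ∏ p ∈ S, (A * (1 / (p : ℝ))) := by rw [Finset.mul_sum]
    _ ≤ W * Real.exp (A * ∑ p ∈ P, 1 / (p : ℝ)) := by
        apply mul_le_mul_of_nonneg_left _ hW
        rw [Finset.mul_sum]
        apply sum_powerset_le_exp
        intro p _
        positivity

/-- `S` has at most `8` elements larger than `z`. -/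
def Near (z : ℝ) (S : Finset ℕ) : Prop := (S.filter (fun p : ℕ => z < (p : ℝ))).card ≤ 8

noncomputable instance (z : ℝ) : DecidablePred (Near z) := Classical.decPred _

theorem sum_near (P : Finset ℕ) (g : ℕ → ℝ) (hg : ∀ p ∈ P, 0 ≤ g p) (z B : ℝ) (hB : 1 ≤ B) :
    ∑ S ∈ P.powerset.filter (Near z), ∏ p ∈ S, g p ≤
      B ^ 8 * Real.exp (∑ p ∈ P, (if z < (p : ℝ) then g p / B else g p)) := by
  have hB0 : 0 < B := by linarith
  have hg' : ∀ p ∈ P, 0 ≤ (if z < (p : ℝ) then g p / B else g p) := by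
    intro p hp
    have := hg p hp
    split_ifs
    · positivity
    · exact this
  have h1 : ∀ S ∈ P.powerset.filter (Near z),
      ∏ p ∈ S, g p ≤ B ^ 8 * ∏ p ∈ S, (if z < (p : ℝ) then g p / B else g p) := by
    intro S hS
    rw [Finset.mem_filter, Finset.mem_powerset] at hS
    have h2 : ∏ p ∈ S, g p = B ^ (S.filter (fun p : ℕ => z < (p : ℝ))).card *
        ∏ p ∈ S, (if z < (p : ℝ) then g p / B else g p) := by
      have e1 : ∀ p ∈ S, g p = (if z < (p : ℝ) then B else 1) *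
          (if z < (p : ℝ) then g p / B else g p) := by
        intro p _
        split_ifs
        · field_simp
        · ring
      rw [Finset.prod_congr rfl e1, Finset.prod_mul_distrib, Finset.prod_ite]
      simp
    rw [h2]
    apply mul_le_mul_of_nonneg_right
    · exact pow_le_pow_right₀ hB hS.2
    · apply Finset.prod_nonneg
      intro p hp
      exact hg' p (hS.1 hp)
  calc ∑ S ∈ P.powerset.filter (Near z), ∏ p ∈ S, g p
      ≤ ∑ S ∈ P.powerset.filter (Near z),
        B ^ 8 * ∏ p ∈ S, (if z < (p : ℝ) then g p / B else g p) := Finset.sum_le_sum h1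
    _ ≤ ∑ S ∈ P.powerset, B ^ 8 * ∏ p ∈ S, (if z < (p : ℝ) then g p / B else g p) := by
        apply Finset.sum_le_sum_of_subset_of_nonneg (Finset.filter_subset _ _)
        intro S hS _
        rw [Finset.mem_powerset] at hS
        apply mul_nonneg (by positivity)
        apply Finset.prod_nonneg
        intro p hp
        exact hg' p (hS hp)
    _ = B ^ 8 * ∑ S ∈ P.powerset, ∏ p ∈ S, (if z < (p : ℝ) then g p / B else g p) := by
        rw [Finset.mul_sum]
    _ ≤ _ := by
        apply mul_le_mul_of_nonneg_left _ (by positivity)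
        exact sum_powerset_le_exp P _ hg'

theorem near_erase {z : ℝ} {S : Finset ℕ} (h : Near z S) (q : ℕ) : Near z (S.erase q) := by
  unfold Near at *
  refine le_trans (Finset.card_le_card ?_) h
  intro p hp
  rw [Finset.mem_filter] at hp ⊢
  exact ⟨Finset.mem_of_mem_erase hp.1, hp.2⟩

/-- Near-prime sets containing a prime larger than `w`. -/
theorem sum_near_large (P : Finset ℕ) (hP : ∀ p ∈ P, p.Prime) (A Y z w B : ℝ) (hA : 0 ≤ A)
    (hY : 0 ≤ Y) (hw : 1 < w) (hB : 1 ≤ B) :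
    ∑ S ∈ P.powerset.filter (fun S => Near z S ∧ ((∏ p ∈ S, p : ℕ) : ℝ) ≤ Y ∧ ∃ q ∈ S, w < (q : ℝ)),
      A ^ S.card ≤
      A * (2 * Y / Real.log w) *
        (B ^ 8 * Real.exp (∑ p ∈ P, (if z < (p : ℝ) then (A * (1 / (p : ℝ))) / B else A * (1 / (p : ℝ))))) := by
  classical
  set F := P.powerset.filter
    (fun S => Near z S ∧ ((∏ p ∈ S, p : ℕ) : ℝ) ≤ Y ∧ ∃ q ∈ S, w < (q : ℝ)) with hF
  have hlw : 0 < Real.log w := Real.log_pos hw
  have hmem : ∀ S ∈ F, S ⊆ P ∧ Near z S ∧ ((∏ p ∈ S, p : ℕ) : ℝ) ≤ Y ∧ ∃ q ∈ S, w < (q : ℝ) := by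
    intro S hS
    rw [hF, Finset.mem_filter, Finset.mem_powerset] at hS
    exact hS
  -- choose a large prime
  choose! q hqS hqw using fun S (hS : S ∈ F) => (hmem S hS).2.2.2
  set φ : Finset ℕ → Finset ℕ × ℕ := fun S => (S.erase (q S), q S) with hφ
  have hinj : Set.InjOn φ F := by
    intro S hS S' hS' heq
    simp only [hφ, Prod.mk.injEq] at heq
    have e1 := Finset.insert_erase (hqS S hS)
    have e2 := Finset.insert_erase (hqS S' hS')
    rw [← e1, ← e2, heq.1, heq.2]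
  set G := (P.powerset.filter (Near z)).sigma
    (fun S' => P.filter (fun p : ℕ => w < (p : ℝ) ∧ (p : ℝ) ≤ Y / ((∏ p ∈ S', p : ℕ) : ℝ))) with hG
  have hprodpos : ∀ S ⊆ P, (0 : ℝ) < ((∏ p ∈ S, p : ℕ) : ℝ) := by
    intro S hS
    exact_mod_cast Finset.prod_pos (fun p hp => (hP p (hS hp)).pos)
  have hstep1 : ∑ S ∈ F, A ^ S.card ≤ ∑ x ∈ G, A ^ (x.1.card + 1) := by
    set ψ : Finset ℕ → (_ : Finset ℕ) × ℕ := fun S => ⟨S.erase (q S), q S⟩ with hψ
    have hinj' : Set.InjOn ψ F := by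
      intro S hS S' hS' heq
      apply hinj hS hS'
      simp only [hψ, Sigma.mk.injEq, heq_eq_eq] at heq
      simp only [hφ, Prod.mk.injEq]
      exact heq
    have hsum : ∑ x ∈ F.image ψ, A ^ (x.1.card + 1) = ∑ S ∈ F, A ^ S.card := by
      rw [Finset.sum_image hinj']
      apply Finset.sum_congr rfl
      intro S hS
      simp only [hψ]
      rw [Finset.card_erase_add_one (hqS S hS)]
    rw [← hsum]
    apply Finset.sum_le_sum_of_subset_of_nonneg
    · intro x hx
      rw [Finset.mem_image] at hx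
      obtain ⟨S, hS, rfl⟩ := hx
      obtain ⟨hSP, hn, hle, _⟩ := hmem S hS
      simp only [hG, hψ, Finset.mem_sigma, Finset.mem_filter, Finset.mem_powerset]
      refine ⟨⟨(Finset.erase_subset _ _).trans hSP, near_erase hn _⟩, hSP (hqS S hS), hqw S hS, ?_⟩
      rw [le_div_iff₀ (hprodpos _ ((Finset.erase_subset _ _).trans hSP))]
      have : ((∏ p ∈ S, p : ℕ) : ℝ) = (q S : ℝ) * ((∏ p ∈ S.erase (q S), p : ℕ) : ℝ) := by
        rw [← Finset.mul_prod_erase S (fun p => p) (hqS S hS)]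
        push_cast
        ring
      rw [← this]
      exact hle
    · intro x _ _
      positivity
  have hstep2 : ∑ x ∈ G, A ^ (x.1.card + 1) ≤
      ∑ S' ∈ P.powerset.filter (Near z), A * (2 * Y / Real.log w) * ∏ p ∈ S', (A * (1 / (p : ℝ))) := by
    rw [hG, Finset.sum_sigma]
    apply Finset.sum_le_sum
    intro S' hS'
    rw [Finset.mem_filter, Finset.mem_powerset] at hS'
    simp only
    rw [Finset.sum_const, nsmul_eq_mul]
    have hpp := hprodpos S' hS'.1
    have hcard := card_primes_le (P.filter (fun p : ℕ => w < (p : ℝ) ∧ (p : ℝ) ≤ Y / ((∏ p ∈ S', p : ℕ) : ℝ)))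
      (fun p hp => hP p (Finset.mem_filter.mp hp).1) w (Y / ((∏ p ∈ S', p : ℕ) : ℝ)) hw
      (fun p hp => (Finset.mem_filter.mp hp).2.1) (fun p hp => (Finset.mem_filter.mp hp).2.2)
      (by positivity)
    have h2 : ∏ p ∈ S', (A * (1 / (p : ℝ))) = A ^ S'.card / ((∏ p ∈ S', p : ℕ) : ℝ) := by
      rw [Finset.prod_mul_distrib, Finset.prod_const, Finset.prod_div_distrib]
      push_cast
      simp
      rfl
    rw [h2]
    calc _ ≤ 2 * (Y / ((∏ p ∈ S', p : ℕ) : ℝ)) / Real.log w * A ^ (S'.card + 1) := by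
          apply mul_le_mul_of_nonneg_right hcard (by positivity)
      _ = _ := by
          rw [pow_succ]
          field_simp
  refine hstep1.trans (hstep2.trans ?_)
  rw [← Finset.mul_sum]
  apply mul_le_mul_of_nonneg_left _ (by positivity)
  exact sum_near P (fun p => A * (1 / (p : ℝ))) (fun p _ => by positivity) z B hB

/-- Near-prime sets with all primes at most `w` and large product. -/
theorem sum_near_smooth (P : Finset ℕ) (hP : ∀ p ∈ P, p.Prime) (A Y z w B : ℝ) (hA : 0 ≤ A)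
    (hY : 1 ≤ Y) (hz : 1 < z) (hw : 1 ≤ w) (hw24 : w ^ 32 ≤ Y) (hB : 1 ≤ B) :
    ∑ S ∈ P.powerset.filter (fun S => Near z S ∧ ((∏ p ∈ S, p : ℕ) : ℝ) ≤ Y ∧
        Real.log Y / 2 < Real.log ((∏ p ∈ S, p : ℕ) : ℝ) ∧ ∀ q ∈ S, (q : ℝ) ≤ w),
      A ^ S.card ≤
      Y * Real.exp (-(Real.log Y / (4 * Real.log z))) *
        (B ^ 8 * Real.exp (∑ p ∈ P, (if z < (p : ℝ) then (A * (1 / (p : ℝ))) / B
          else 3 * (A * (1 / (p : ℝ)))))) := by
  classical
  have hlz : 0 < Real.log z := Real.log_pos hz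
  set g : ℕ → ℝ := fun p => if z < (p : ℝ) then A * (1 / (p : ℝ)) else 3 * (A * (1 / (p : ℝ)))
    with hg
  have hprodpos : ∀ S ⊆ P, (0 : ℝ) < ((∏ p ∈ S, p : ℕ) : ℝ) := by
    intro S hS
    exact_mod_cast Finset.prod_pos (fun p hp => (hP p (hS hp)).pos)
  have hterm : ∀ S ∈ P.powerset.filter (fun S => Near z S ∧ ((∏ p ∈ S, p : ℕ) : ℝ) ≤ Y ∧
        Real.log Y / 2 < Real.log ((∏ p ∈ S, p : ℕ) : ℝ) ∧ ∀ q ∈ S, (q : ℝ) ≤ w),
      A ^ S.card ≤ Y * Real.exp (-(Real.log Y / (4 * Real.log z))) * ∏ p ∈ S, g p := by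
    intro S hS
    rw [Finset.mem_filter, Finset.mem_powerset] at hS
    obtain ⟨hSP, hn, hle, hgt, hqw⟩ := hS
    have hpp := hprodpos S hSP
    -- the product over g
    have hprod : ∏ p ∈ S, g p =
        3 ^ (S.filter (fun p : ℕ => ¬ z < (p : ℝ))).card * (A ^ S.card / ((∏ p ∈ S, p : ℕ) : ℝ)) := by
      have e1 : ∀ p ∈ S, g p = (if z < (p : ℝ) then 1 else 3) * (A * (1 / (p : ℝ))) := by
        intro p _
        simp only [hg]
        split_ifs
        · ring
        · ring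
      rw [Finset.prod_congr rfl e1, Finset.prod_mul_distrib, Finset.prod_ite,
        Finset.prod_mul_distrib, Finset.prod_const, Finset.prod_div_distrib]
      push_cast
      simp
      rfl
    -- number of small primes
    have hlogsum : Real.log ((∏ p ∈ S, p : ℕ) : ℝ) = ∑ p ∈ S, Real.log (p : ℝ) := by
      push_cast
      rw [Real.log_prod]
      intro p hp
      exact_mod_cast (hP p (hSP hp)).ne_zero
    have hsplit : ∑ p ∈ S, Real.log (p : ℝ) =
        ∑ p ∈ S.filter (fun p : ℕ => z < (p : ℝ)), Real.log (p : ℝ) +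
        ∑ p ∈ S.filter (fun p : ℕ => ¬ z < (p : ℝ)), Real.log (p : ℝ) :=
      (Finset.sum_filter_add_sum_filter_not S _ _).symm
    have hbig : ∑ p ∈ S.filter (fun p : ℕ => z < (p : ℝ)), Real.log (p : ℝ) ≤ Real.log Y / 4 := by
      have h1 : ∑ p ∈ S.filter (fun p : ℕ => z < (p : ℝ)), Real.log (p : ℝ) ≤
          (S.filter (fun p : ℕ => z < (p : ℝ))).card • Real.log w := by
        apply Finset.sum_le_card_nsmul
        intro p hp
        rw [Finset.mem_filter] at hp
        exact Real.log_le_log (by exact_mod_cast (hP p (hSP hp.1)).pos) (hqw p hp.1)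
      have h2 : ((S.filter (fun p : ℕ => z < (p : ℝ))).card : ℝ) ≤ 8 := by exact_mod_cast hn
      have h3 : 0 ≤ Real.log w := Real.log_nonneg hw
      have h4 : 32 * Real.log w ≤ Real.log Y := by
        have := Real.log_le_log (by positivity) hw24
        rw [Real.log_pow] at this
        exact_mod_cast this
      rw [nsmul_eq_mul] at h1
      nlinarith
    have hsm : ∑ p ∈ S.filter (fun p : ℕ => ¬ z < (p : ℝ)), Real.log (p : ℝ) ≤
        (S.filter (fun p : ℕ => ¬ z < (p : ℝ))).card • Real.log z := by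
      apply Finset.sum_le_card_nsmul
      intro p hp
      rw [Finset.mem_filter] at hp
      exact Real.log_le_log (by exact_mod_cast (hP p (hSP hp.1)).pos) (not_lt.mp hp.2)
    set k := (S.filter (fun p : ℕ => ¬ z < (p : ℝ))).card with hk
    have hklow : Real.log Y / (4 * Real.log z) ≤ k := by
      rw [nsmul_eq_mul] at hsm
      rw [div_le_iff₀ (by positivity)]
      linarith
    have h3k : 1 ≤ Real.exp (-(Real.log Y / (4 * Real.log z))) * 3 ^ k := by
      have e1 : Real.exp (k : ℝ) ≤ 3 ^ k := by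
        rw [← Real.exp_one_pow]
        apply pow_le_pow_left₀ (Real.exp_pos _).le
        linarith [Real.exp_one_lt_d9]
      calc (1 : ℝ) = Real.exp (-(Real.log Y / (4 * Real.log z))) *
            Real.exp (Real.log Y / (4 * Real.log z)) := by
            rw [← Real.exp_add]
            simp
        _ ≤ Real.exp (-(Real.log Y / (4 * Real.log z))) * 3 ^ k := by
            apply mul_le_mul_of_nonneg_left _ (Real.exp_pos _).le
            exact le_trans (Real.exp_le_exp.mpr hklow) e1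
    rw [hprod]
    have hYdiv : 1 ≤ Y / ((∏ p ∈ S, p : ℕ) : ℝ) := by
      rw [le_div_iff₀ hpp]
      linarith
    calc A ^ S.card = 1 * 1 * A ^ S.card := by ring
      _ ≤ (Real.exp (-(Real.log Y / (4 * Real.log z))) * 3 ^ k) * (Y / ((∏ p ∈ S, p : ℕ) : ℝ)) *
            A ^ S.card := by
          apply mul_le_mul_of_nonneg_right _ (by positivity)
          apply mul_le_mul h3k hYdiv (by norm_num) (by positivity)
      _ = _ := by ring
  refine (Finset.sum_le_sum hterm).trans ?_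
  rw [← Finset.mul_sum]
  apply mul_le_mul_of_nonneg_left _ (by positivity)
  have hg0 : ∀ p ∈ P, 0 ≤ g p := by
    intro p _
    simp only [hg]
    split_ifs <;> positivity
  have hfin := sum_near P g hg0 z B hB
  have hsub : ∑ S ∈ P.powerset.filter (fun S => Near z S ∧ ((∏ p ∈ S, p : ℕ) : ℝ) ≤ Y ∧
        Real.log Y / 2 < Real.log ((∏ p ∈ S, p : ℕ) : ℝ) ∧ ∀ q ∈ S, (q : ℝ) ≤ w), ∏ p ∈ S, g p ≤
      ∑ S ∈ P.powerset.filter (Near z), ∏ p ∈ S, g p := by
    apply Finset.sum_le_sum_of_subset_of_nonneg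
    · intro S hS
      rw [Finset.mem_filter] at hS ⊢
      exact ⟨hS.1, hS.2.1⟩
    · intro S hS _
      rw [Finset.mem_filter, Finset.mem_powerset] at hS
      exact Finset.prod_nonneg (fun p hp => hg0 p (hS.1 hp))
  refine hsub.trans (hfin.trans (le_of_eq ?_))
  congr 2
  apply Finset.sum_congr rfl
  intro p _
  simp only [hg]
  split_ifs <;> rfl

end Pool.Agent.Lib.Pabc2
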