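import Mathlib

open Filter Topology

namespace Pool.Agent.Lib.Pabc2

theorem tendsto_rpow_exp (a b c : ℝ) (hb : 0 < b) (hc : 0 < c) :
    Tendsto (fun x : ℝ => x ^ a * Real.exp (-(c * x ^ b))) atTop (𝓝 0) := by
  have h1 := tendsto_rpow_mul_exp_neg_mul_atTop_nhds_zero (a / b) c hc
  have h2 := h1.comp (tendsto_rpow_atTop hb)
  refine h2.congr' ?_
  filter_upwards [eventually_gt_atTop 0] with x hx
  simp only [Function.comp]
  rw [← Real.rpow_mul hx.le, mul_div_cancel₀ _ hb.ne']
  ring_nf

theorem one_add_log_le {x : ℝ} (hx : 3 ≤ x) : 1 + Real.log (1 + x) ≤ 3 * Real.log x := by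
  have h1 : 1 ≤ Real.log x := by
    rw [Real.le_log_iff_exp_le (by linarith)]
    linarith [Real.exp_one_lt_d9]
  have h2 : Real.log (1 + x) ≤ Real.log (x ^ 2) :=
    Real.log_le_log (by linarith) (by nlinarith)
  rw [Real.log_pow] at h2
  push_cast at h2
  linarith

theorem exp_mul_one_add_log_le {x c : ℝ} (hx : 3 ≤ x) (hc : 0 ≤ c) :
    Real.exp (c * (1 + Real.log (1 + x))) ≤ x ^ (3 * c) := by
  rw [Real.rpow_def_of_pos (by linarith)]
  apply Real.exp_le_exp.mpr
  have := mul_le_mul_of_nonneg_left (one_add_log_le hx) hc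
  linarith

theorem asymp (A K : ℝ) (hA : 0 < A) :
    ∀ᶠ x in atTop,
      K + 909 * (Real.exp x / x ^ (27 * A + 1) * Real.exp (A * (9 * (1 + Real.log (1 + x)))) +
        (Real.exp (x / 2) * Real.exp (A * (9 * (1 + Real.log (1 + x)))) +
          (A * (2 * Real.exp x / (x / 32)) +
            Real.exp x * Real.exp (-(x / (4 * ((27 * A + 1) * Real.log x))))) *
          ((1 + A * (9 * (1 + Real.log (1 + x)))) ^ 8 *
            Real.exp (1 + 3 * (A * (9 * (1 + Real.log (1 + (27 * A + 1) * Real.log x)))))))) ≤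
        Real.exp x * Real.log x ^ (18 + 162 * A) / x := by
  set κ : ℝ := 27 * A + 1 with hκ
  have hκ0 : 0 < κ := by rw [hκ]; positivity
  have l1 := (tendsto_rpow_exp 1 1 1 (by norm_num) (by norm_num)).const_mul K
  have l3 := (tendsto_rpow_exp (27 * A + 1) 1 (1 / 2) (by norm_num) (by norm_num)).const_mul 909
  have l5 := (tendsto_rpow_exp 1 (1 / 2) (1 / (4 * κ)) (by norm_num) (by positivity)).const_mul 909
  rw [mul_zero] at l1 l3 l5
  have h5 : (0 : ℝ) < 1 / 5 := by norm_num
  have m1 := l1.eventually (gt_mem_nhds h5)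
  have m3 := l3.eventually (gt_mem_nhds h5)
  have m5 := l5.eventually (gt_mem_nhds h5)
  have hlog := Real.tendsto_log_atTop
  have hl := hlog.eventually (eventually_ge_atTop
    (4545 + 5 * (909 * (64 * A)) + 28 * A + κ + 3 / κ + 10))
  have hsq : ∀ᶠ x : ℝ in atTop, Real.log x ≤ x ^ (1 / 2 : ℝ) := by
    have := (isLittleO_log_rpow_atTop (show (0 : ℝ) < 1 / 2 by norm_num)).bound one_pos
    filter_upwards [this, eventually_ge_atTop 1] with x hx hx1
    rw [Real.norm_eq_abs, Real.norm_eq_abs, one_mul] at hx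
    rw [abs_of_nonneg (Real.log_nonneg hx1), abs_of_nonneg (Real.rpow_nonneg (by linarith) _)] at hx
    exact hx
  filter_upwards [m1, m3, m5, hl, hsq, eventually_ge_atTop 3] with x k1 k3 k5 kl ksq kx
  have hx0 : 0 < x := by linarith
  set E := Real.exp x with hE
  have hEpos : 0 < E := Real.exp_pos _
  set y := Real.log x with hy
  have h3κ : 0 < 3 / κ := by positivity
  have hy1 : 10 ≤ y := by nlinarith
  have hy2 : 4545 ≤ y := by nlinarith
  have hy3 : 5 * (909 * (64 * A)) ≤ y := by nlinarith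
  have hy4 : 28 * A + 1 ≤ y := by nlinarith
  have hy5 : κ ≤ y := by nlinarith
  have hy6 : 3 / κ ≤ y := by nlinarith
  have hy0 : 0 < y := by linarith
  set R := y ^ (18 + 162 * A) with hR
  have hRy : y ≤ R := by
    rw [hR]
    calc y = y ^ (1 : ℝ) := (Real.rpow_one y).symm
      _ ≤ y ^ (18 + 162 * A) := Real.rpow_le_rpow_of_exponent_le (by linarith) (by linarith)
  have hR1 : 1 ≤ R := by linarith
  rw [le_div_iff₀ hx0]
  -- bounds of pieces
  have p1 : Real.exp (A * (9 * (1 + Real.log (1 + x)))) ≤ x ^ (27 * A) := by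
    have := exp_mul_one_add_log_le (c := A * 9) kx (by positivity)
    calc Real.exp (A * (9 * (1 + Real.log (1 + x)))) =
        Real.exp (A * 9 * (1 + Real.log (1 + x))) := by ring_nf
      _ ≤ x ^ (3 * (A * 9)) := this
      _ = x ^ (27 * A) := by ring_nf
  have hκy : 3 ≤ κ * y := by
    rw [div_le_iff₀ hκ0] at hy6
    linarith
  have p2 : Real.exp (1 + 3 * (A * (9 * (1 + Real.log (1 + κ * y))))) ≤
      y ^ (1 + 162 * A) := by
    rw [Real.exp_add, Real.rpow_add hy0, Real.rpow_one]
    apply mul_le_mul _ _ (Real.exp_pos _).le hy0.le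
    · linarith [Real.exp_one_lt_d9]
    · have := exp_mul_one_add_log_le (c := 27 * A) hκy (by positivity)
      calc Real.exp (3 * (A * (9 * (1 + Real.log (1 + κ * y))))) =
          Real.exp (27 * A * (1 + Real.log (1 + κ * y))) := by ring_nf
        _ ≤ (κ * y) ^ (3 * (27 * A)) := this
        _ ≤ (y ^ (2 : ℝ)) ^ (3 * (27 * A)) := by
          apply Real.rpow_le_rpow (by positivity) _ (by positivity)
          rw [Real.rpow_two]
          nlinarith
        _ = y ^ (162 * A) := by
          rw [← Real.rpow_mul hy0.le]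
          congr 1
          ring
  have hl0 : 0 ≤ Real.log (1 + x) := Real.log_nonneg (by linarith)
  have p3 : (1 + A * (9 * (1 + Real.log (1 + x)))) ^ 8 ≤ y ^ (16 : ℝ) := by
    have e1 : (1 + A * (9 * (1 + Real.log (1 + x)))) ^ 8 ≤ (y ^ 2) ^ 8 := by
      apply pow_le_pow_left₀ (by positivity)
      have := mul_le_mul_of_nonneg_left (one_add_log_le kx) (show 0 ≤ 9 * A by positivity)
      rw [← hy] at this
      nlinarith
    refine e1.trans (le_of_eq ?_)
    rw [← pow_mul, ← Real.rpow_natCast]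
    norm_num
  have p4 : (1 + A * (9 * (1 + Real.log (1 + x)))) ^ 8 *
      Real.exp (1 + 3 * (A * (9 * (1 + Real.log (1 + κ * y))))) ≤ y ^ (17 + 162 * A) := by
    calc _ ≤ y ^ (16 : ℝ) * y ^ (1 + 162 * A) := by
          apply mul_le_mul p3 p2 (Real.exp_pos _).le (Real.rpow_nonneg hy0.le _)
      _ = _ := by
          rw [← Real.rpow_add hy0]
          congr 1
          ring
  have hRe : R = y * y ^ (17 + 162 * A) := by
    rw [hR, show (18 : ℝ) + 162 * A = 1 + (17 + 162 * A) by ring, Real.rpow_add hy0, Real.rpow_one]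
  set Q := y ^ (17 + 162 * A) with hQ
  have hQ0 : 0 < Q := Real.rpow_pos_of_pos hy0 _
  -- five terms
  have q1 : K * x ≤ E * R / 5 := by
    have e1 : K * x ≤ E / 5 := by
      rw [Real.rpow_one, one_mul, Real.exp_neg, ← hE] at k1
      have : K * (x * E⁻¹) * E = K * x := by field_simp
      rw [← this]
      have := mul_le_mul_of_nonneg_right k1.le hEpos.le
      linarith
    nlinarith
  have q2 : 909 * (E / x ^ κ * Real.exp (A * (9 * (1 + Real.log (1 + x))))) * x ≤ E * R / 5 := by
    have hxκ : 0 < x ^ κ := Real.rpow_pos_of_pos hx0 _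
    calc _ ≤ 909 * (E / x ^ κ * x ^ (27 * A)) * x := by
          apply mul_le_mul_of_nonneg_right _ hx0.le
          apply mul_le_mul_of_nonneg_left _ (by norm_num)
          apply mul_le_mul_of_nonneg_left p1 (by positivity)
      _ = 909 * E := by
          have : x ^ κ = x ^ (27 * A) * x := by
            rw [hκ, Real.rpow_add hx0, Real.rpow_one]
          rw [this]
          have h2 : 0 < x ^ (27 * A) := Real.rpow_pos_of_pos hx0 _
          field_simp
      _ ≤ E * R / 5 := by nlinarith
  have q3 : 909 * (Real.exp (x / 2) * Real.exp (A * (9 * (1 + Real.log (1 + x))))) * x ≤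
      E * R / 5 := by
    calc _ ≤ 909 * (Real.exp (x / 2) * x ^ (27 * A)) * x := by
          apply mul_le_mul_of_nonneg_right _ hx0.le
          apply mul_le_mul_of_nonneg_left _ (by norm_num)
          apply mul_le_mul_of_nonneg_left p1 (by positivity)
      _ = 909 * (x ^ (27 * A + 1) * Real.exp (-(1 / 2 * x ^ (1 : ℝ)))) * E := by
          rw [Real.rpow_add hx0, Real.rpow_one, hE]
          have : Real.exp (x / 2) = Real.exp (-(1 / 2 * x)) * Real.exp x := by
            rw [← Real.exp_add]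
            congr 1
            ring
          rw [this]
          ring
      _ ≤ 1 / 5 * E := by
          apply mul_le_mul_of_nonneg_right k3.le hEpos.le
      _ ≤ E * R / 5 := by nlinarith
  have q4 : 909 * (A * (2 * E / (x / 32)) * Q) * x ≤ E * R / 5 := by
    calc _ = (909 * (64 * A)) * (E * Q) := by
          field_simp
          ring
      _ ≤ (y / 5) * (E * Q) := by
          apply mul_le_mul_of_nonneg_right _ (by positivity)
          linarith
      _ = E * R / 5 := by
          rw [hRe]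
          ring
  have q5 : 909 * (E * Real.exp (-(x / (4 * (κ * y)))) * Q) * x ≤ E * R / 5 := by
    have e1 : Real.exp (-(x / (4 * (κ * y)))) ≤ Real.exp (-(1 / (4 * κ) * x ^ (1 / 2 : ℝ))) := by
      apply Real.exp_le_exp.mpr
      rw [neg_le_neg_iff]
      have hs : x ^ (1 / 2 : ℝ) * x ^ (1 / 2 : ℝ) = x := by
        rw [← Real.rpow_add hx0]
        norm_num
      have hs0 : 0 < x ^ (1 / 2 : ℝ) := Real.rpow_pos_of_pos hx0 _
      rw [div_mul_eq_mul_div, one_mul, div_le_div_iff₀ (by positivity) (by positivity)]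
      calc x ^ (1 / 2 : ℝ) * (4 * (κ * y)) ≤ x ^ (1 / 2 : ℝ) * (4 * (κ * x ^ (1 / 2 : ℝ))) := by
            gcongr
        _ = (x ^ (1 / 2 : ℝ) * x ^ (1 / 2 : ℝ)) * (4 * κ) := by ring
        _ = x * (4 * κ) := by rw [hs]
    calc _ ≤ 909 * (E * Real.exp (-(1 / (4 * κ) * x ^ (1 / 2 : ℝ))) * Q) * x := by
          gcongr
      _ = 909 * (x ^ (1 : ℝ) * Real.exp (-(1 / (4 * κ) * x ^ (1 / 2 : ℝ)))) * (E * Q) := by
          rw [Real.rpow_one]
          ring
      _ ≤ 1 / 5 * (E * Q) := by
          apply mul_le_mul_of_nonneg_right k5.le (by positivity)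
      _ ≤ E * R / 5 := by
          rw [hRe]
          have : 0 < E * Q := by positivity
          nlinarith
  have r1 : (A * (2 * E / (x / 32)) + E * Real.exp (-(x / (4 * (κ * y))))) *
      ((1 + A * (9 * (1 + Real.log (1 + x)))) ^ 8 *
            Real.exp (1 + 3 * (A * (9 * (1 + Real.log (1 + κ * y)))))) ≤
      A * (2 * E / (x / 32)) * Q + E * Real.exp (-(x / (4 * (κ * y)))) * Q := by
    rw [← add_mul]
    apply mul_le_mul_of_nonneg_left p4 (by positivity)
  have r2 := mul_le_mul_of_nonneg_right r1 hx0.le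
  linarith [q1, q2, q3, q4, q5, r2]

end Pool.Agent.Lib.Pabc2
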