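import Mathlib
import Pool.Agent.Lib.Pabc2.Sums
import Pool.Agent.Lib.Pabc2.Cell

open Finset

namespace Pool.Agent.Lib.Pabc2

/-- The radical of the triple `t`. -/
def rd (t : ℕ × ℕ) : ℕ := ∏ p ∈ (N t).primeFactors, p

theorem sum_u_eq {t : ℕ × ℕ} (h : IsT t) :
    ∑ p ∈ (N t).primeFactors, u t p = (Real.log t.1 + Real.log t.2 + ht t) / ht t := by
  unfold u
  rw [← Finset.sum_div, sum_ex_log h]

theorem sum_u_le_three {t : ℕ × ℕ} (h : IsT t) : ∑ p ∈ (N t).primeFactors, u t p ≤ 3 := by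
  rw [sum_u_eq h, div_le_iff₀ (ht_pos h)]
  have := log_a_le h
  have := log_b_le h
  linarith

/-- If at least nine primes exceed `z`, then one of them carries little mass. -/
theorem exists_light {t : ℕ × ℕ} (h : IsT t) {z : ℝ} (hn : ¬ Near z (N t).primeFactors) :
    ∃ q ∈ (N t).primeFactors, z < (q : ℝ) ∧ u t q ≤ 1 / 3 := by
  by_contra hcon
  push Not at hcon
  have h9 : 9 ≤ ((N t).primeFactors.filter (fun p : ℕ => z < (p : ℝ))).card := by
    unfold Near at hn
    omega
  have hne : ((N t).primeFactors.filter (fun p : ℕ => z < (p : ℝ))).Nonempty := by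
    rw [← Finset.card_pos]
    omega
  have h1 : ∑ p ∈ (N t).primeFactors.filter (fun p : ℕ => z < (p : ℝ)), (1 / 3 : ℝ) <
      ∑ p ∈ (N t).primeFactors.filter (fun p : ℕ => z < (p : ℝ)), u t p := by
    apply Finset.sum_lt_sum_of_nonempty hne
    intro p hp
    rw [Finset.mem_filter] at hp
    exact hcon p hp.1 hp.2
  have h2 : ∑ p ∈ (N t).primeFactors.filter (fun p : ℕ => z < (p : ℝ)), u t p ≤
      ∑ p ∈ (N t).primeFactors, u t p := by
    apply Finset.sum_le_sum_of_subset_of_nonneg (Finset.filter_subset _ _)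
    intro p _ _
    exact u_nonneg h p
  have h3 := sum_u_le_three h
  rw [Finset.sum_const, nsmul_eq_mul] at h1
  have h9' : (9 : ℝ) ≤ (((N t).primeFactors.filter (fun p : ℕ => z < (p : ℝ))).card : ℝ) := by
    exact_mod_cast h9
  linarith

theorem good_primeFactors {t : ℕ × ℕ} (h : IsT t) (hb : 1000 ≤ ht t) :
    Good (N t).primeFactors t where
  h := h
  sub := Finset.Subset.refl _
  mass := by
    rw [sum_u_eq h]
    linarith
  big := hb

theorem good_erase {t : ℕ × ℕ} (h : IsT t) (hb : 1000 ≤ ht t) {q : ℕ}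
    (hq : q ∈ (N t).primeFactors) (hu : u t q ≤ 1 / 3) :
    Good ((N t).primeFactors.erase q) t where
  h := h
  sub := Finset.erase_subset _ _
  mass := by
    rw [← sum_u_eq h, ← Finset.add_sum_erase _ _ hq]
    linarith
  big := hb

theorem card_le_sum_of_good (T : Finset (ℕ × ℕ)) (F : Finset (Finset ℕ))
    (f : ℕ × ℕ → Finset ℕ) (hf : ∀ t ∈ T, f t ∈ F) (hg : ∀ t ∈ T, Good (f t) t) :
    (T.card : ℝ) ≤ 909 * ∑ S ∈ F, Acon ^ S.card := by
  classical
  rw [Finset.card_eq_sum_card_fiberwise (f := f) (t := F) (fun t ht => hf t ht), Finset.mul_sum]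
  push_cast
  apply Finset.sum_le_sum
  intro S _
  apply card_good_le S
  intro t ht
  rw [Finset.mem_filter] at ht
  rw [← ht.2]
  exact hg t ht.1

theorem Acon_pos : 0 < Acon := by
  unfold Acon
  positivity

/-- number of triples of height less than `1000`. -/
theorem card_low (T : Finset (ℕ × ℕ)) (hT : ∀ t ∈ T, IsT t ∧ ht t < 1000) :
    T.card ≤ (⌊Real.exp 1000⌋₊ + 1) * (⌊Real.exp 1000⌋₊ + 1) := by
  have hsub : T ⊆ Finset.range (⌊Real.exp 1000⌋₊ + 1) ×ˢ Finset.range (⌊Real.exp 1000⌋₊ + 1) := by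
    intro t ht'
    obtain ⟨h, hlt⟩ := hT t ht'
    have ha : (0 : ℝ) < t.1 := by exact_mod_cast h.1
    have hb : (0 : ℝ) < t.2 := by exact_mod_cast h.pos2
    have hc : (t.1 : ℝ) + t.2 < Real.exp 1000 := by
      unfold ht at hlt
      rwa [Real.log_lt_iff_lt_exp (by positivity)] at hlt
    rw [Finset.mem_product, Finset.mem_range, Finset.mem_range, Nat.lt_succ_iff, Nat.lt_succ_iff]
    exact ⟨Nat.le_floor (by linarith), Nat.le_floor (by linarith)⟩
  refine (Finset.card_le_card hsub).trans ?_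
  rw [Finset.card_product, Finset.card_range]

/-- The main counting bound. -/
theorem count (n : ℕ) (hn : 1 ≤ n) (T : Finset (ℕ × ℕ)) (hT : ∀ t ∈ T, IsT t ∧ rd t ≤ n)
    (z w B : ℝ) (hz : 1 < z) (hw : 1 < w) (hw32 : w ^ 32 ≤ (n : ℝ)) (hB : 1 ≤ B) :
    (T.card : ℝ) ≤ ((⌊Real.exp 1000⌋₊ + 1) * (⌊Real.exp 1000⌋₊ + 1) : ℕ) +
      909 * ((n : ℝ) / z * Real.exp (Acon * ∑ p ∈ Nat.primesLE n, 1 / (p : ℝ)) +
        (Real.exp (Real.log n / 2) * Real.exp (Acon * ∑ p ∈ Nat.primesLE n, 1 / (p : ℝ)) +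
         (Acon * (2 * n / Real.log w) + n * Real.exp (-(Real.log n / (4 * Real.log z)))) *
        (B ^ 8 * Real.exp (∑ p ∈ Nat.primesLE n, (if z < (p : ℝ) then (Acon * (1 / (p : ℝ))) / B
          else 3 * (Acon * (1 / (p : ℝ)))))))) := by
  classical
  set P := Nat.primesLE n with hP
  have hPp : ∀ p ∈ P, p.Prime := fun p hp => (Nat.mem_primesLE.mp hp).2
  have hA := Acon_pos
  have hn' : (1 : ℝ) ≤ n := by exact_mod_cast hn
  have hn0 : (0 : ℝ) < n := by linarith
  have hsubP : ∀ t ∈ T, (N t).primeFactors ⊆ P := by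
    intro t htT p hp
    rw [hP, Nat.mem_primesLE]
    refine ⟨le_trans ?_ (hT t htT).2, Nat.prime_of_mem_primeFactors hp⟩
    exact Nat.le_of_dvd (Finset.prod_pos (fun q hq => (Nat.prime_of_mem_primeFactors hq).pos))
      (Finset.dvd_prod_of_mem (fun p => p) hp)
  -- split
  set T0 := T.filter (fun t => ht t < 1000) with hT0
  set T1 := (T.filter (fun t => ¬ ht t < 1000)).filter (fun t => ¬ Near z (N t).primeFactors) with hT1
  set T2 := (T.filter (fun t => ¬ ht t < 1000)).filter (fun t => Near z (N t).primeFactors) with hT2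
  have hcard : (T.card : ℝ) = T0.card + (T2.card + T1.card) := by
    rw [hT0, hT1, hT2]
    have e1 := Finset.card_filter_add_card_filter_not (s := T) (fun t => ht t < 1000)
    have e2 := Finset.card_filter_add_card_filter_not (s := T.filter (fun t => ¬ ht t < 1000))
      (fun t => Near z (N t).primeFactors)
    rw [← e1, ← e2]
    push_cast
    ring
  have b0 : (T0.card : ℝ) ≤ ((⌊Real.exp 1000⌋₊ + 1) * (⌊Real.exp 1000⌋₊ + 1) : ℕ) := by
    exact_mod_cast card_low T0 (fun t h => by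
      rw [hT0, Finset.mem_filter] at h
      exact ⟨(hT t h.1).1, h.2⟩)
  -- many large primes
  have b1 : (T1.card : ℝ) ≤ 909 * ((n : ℝ) / z *
      Real.exp (Acon * ∑ p ∈ P, 1 / (p : ℝ))) := by
    have hm : ∀ t ∈ T1, t ∈ T ∧ 1000 ≤ ht t ∧ ¬ Near z (N t).primeFactors := by
      intro t h
      rw [hT1, Finset.mem_filter, Finset.mem_filter] at h
      exact ⟨h.1.1, not_lt.mp h.1.2, h.2⟩
    choose! q hq hqz hqu using fun t (h : t ∈ T1) =>
      exists_light (hT t (hm t h).1).1 (hm t h).2.2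
    refine (card_le_sum_of_good T1
      (P.powerset.filter (fun S => ((∏ p ∈ S, p : ℕ) : ℝ) ≤ n / z))
      (fun t => (N t).primeFactors.erase (q t)) ?_ ?_).trans ?_
    · intro t h
      rw [Finset.mem_filter, Finset.mem_powerset]
      refine ⟨(Finset.erase_subset _ _).trans (hsubP t (hm t h).1), ?_⟩
      rw [le_div_iff₀ (by linarith)]
      have h1 : (rd t : ℝ) = (q t : ℝ) * ((∏ p ∈ (N t).primeFactors.erase (q t), p : ℕ) : ℝ) := by
        unfold rd
        rw [← Finset.mul_prod_erase _ (fun p => p) (hq t h)]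
        push_cast
        ring
      have h2 : (rd t : ℝ) ≤ n := by exact_mod_cast (hT t (hm t h).1).2
      have h3 : (0 : ℝ) ≤ ((∏ p ∈ (N t).primeFactors.erase (q t), p : ℕ) : ℝ) := by positivity
      have h4 := hqz t h
      calc ((∏ p ∈ (N t).primeFactors.erase (q t), p : ℕ) : ℝ) * z ≤
          ((∏ p ∈ (N t).primeFactors.erase (q t), p : ℕ) : ℝ) * q t :=
            mul_le_mul_of_nonneg_left h4.le h3
        _ = rd t := by rw [h1]; ring
        _ ≤ n := h2
    · intro t h
      exact good_erase (hT t (hm t h).1).1 (hm t h).2.1 (hq t h) (hqu t h)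
    · apply mul_le_mul_of_nonneg_left _ (by norm_num)
      exact sum_small P hPp Acon (n / z) hA.le (by positivity)
  -- few large primes
  have b2 : (T2.card : ℝ) ≤ 909 * (Real.exp (Real.log n / 2) *
      Real.exp (Acon * ∑ p ∈ P, 1 / (p : ℝ)) +
         (Acon * (2 * n / Real.log w) + n * Real.exp (-(Real.log n / (4 * Real.log z)))) *
        (B ^ 8 * Real.exp (∑ p ∈ P, (if z < (p : ℝ) then (Acon * (1 / (p : ℝ))) / B
          else 3 * (Acon * (1 / (p : ℝ))))))) := by
    have hm : ∀ t ∈ T2, t ∈ T ∧ 1000 ≤ ht t ∧ Near z (N t).primeFactors := by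
      intro t h
      rw [hT2, Finset.mem_filter, Finset.mem_filter] at h
      exact ⟨h.1.1, not_lt.mp h.1.2, h.2⟩
    set F1 := P.powerset.filter
      (fun S => ((∏ p ∈ S, p : ℕ) : ℝ) ≤ Real.exp (Real.log n / 2)) with hF1
    set F2 := P.powerset.filter
      (fun S => Near z S ∧ ((∏ p ∈ S, p : ℕ) : ℝ) ≤ n ∧ ∃ q ∈ S, w < (q : ℝ)) with hF2
    set F3 := P.powerset.filter (fun S => Near z S ∧ ((∏ p ∈ S, p : ℕ) : ℝ) ≤ n ∧
        Real.log n / 2 < Real.log ((∏ p ∈ S, p : ℕ) : ℝ) ∧ ∀ q ∈ S, (q : ℝ) ≤ w) with hF3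
    have hmain := card_le_sum_of_good T2 (F1 ∪ (F2 ∪ F3)) (fun t => (N t).primeFactors) (by
      intro t h
      obtain ⟨h1, h2, h3⟩ := hm t h
      have hsP := hsubP t h1
      have hle : ((∏ p ∈ (N t).primeFactors, p : ℕ) : ℝ) ≤ n := by exact_mod_cast (hT t h1).2
      rw [Finset.mem_union, Finset.mem_union, hF1, hF2, hF3, Finset.mem_filter, Finset.mem_filter,
        Finset.mem_filter, Finset.mem_powerset]
      by_cases c1 : ((∏ p ∈ (N t).primeFactors, p : ℕ) : ℝ) ≤ Real.exp (Real.log n / 2)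
      · left
        exact ⟨hsP, c1⟩
      · right
        by_cases c2 : ∃ q ∈ (N t).primeFactors, w < (q : ℝ)
        · left
          exact ⟨hsP, h3, hle, c2⟩
        · right
          push Not at c2
          refine ⟨hsP, h3, hle, ?_, c2⟩
          rw [not_le] at c1
          rw [Real.lt_log_iff_exp_lt]
          · exact c1
          · exact lt_trans (Real.exp_pos _) c1) (by
      intro t h
      obtain ⟨h1, h2, _⟩ := hm t h
      exact good_primeFactors (hT t h1).1 h2)
    refine hmain.trans ?_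
    apply mul_le_mul_of_nonneg_left _ (by norm_num)
    have hnn : ∀ S : Finset ℕ, 0 ≤ Acon ^ S.card := fun S => by positivity
    have e1 : ∑ S ∈ F1 ∪ (F2 ∪ F3), Acon ^ S.card ≤ ∑ S ∈ F1, Acon ^ S.card +
        (∑ S ∈ F2, Acon ^ S.card + ∑ S ∈ F3, Acon ^ S.card) := by
      have a1 := Finset.sum_union_inter (s₁ := F1) (s₂ := F2 ∪ F3) (f := fun S => Acon ^ S.card)
      have a2 := Finset.sum_union_inter (s₁ := F2) (s₂ := F3) (f := fun S => Acon ^ S.card)
      have a3 : 0 ≤ ∑ S ∈ F1 ∩ (F2 ∪ F3), Acon ^ S.card := Finset.sum_nonneg (fun S _ => hnn S)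
      have a4 : 0 ≤ ∑ S ∈ F2 ∩ F3, Acon ^ S.card := Finset.sum_nonneg (fun S _ => hnn S)
      linarith
    refine e1.trans ?_
    have s1 := sum_small P hPp Acon (Real.exp (Real.log n / 2)) hA.le (Real.exp_pos _).le
    have s2 := sum_near_large P hPp Acon n z w B hA.le hn0.le hw hB
    have s3 := sum_near_smooth P hPp Acon n z w B hA.le hn' hz hw.le hw32 hB
    have s4 : ∑ p ∈ P, (if z < (p : ℝ) then (Acon * (1 / (p : ℝ))) / B else Acon * (1 / (p : ℝ))) ≤
        ∑ p ∈ P, (if z < (p : ℝ) then (Acon * (1 / (p : ℝ))) / B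
          else 3 * (Acon * (1 / (p : ℝ)))) := by
      apply Finset.sum_le_sum
      intro p _
      split_ifs
      · exact le_refl _
      · have : 0 ≤ Acon * (1 / (p : ℝ)) := by positivity
        linarith
    have s5 := Real.exp_le_exp.mpr s4
    have hlw : 0 < Real.log w := Real.log_pos hw
    have s6 : Acon * (2 * n / Real.log w) *
        (B ^ 8 * Real.exp (∑ p ∈ P, (if z < (p : ℝ) then (Acon * (1 / (p : ℝ))) / B
          else Acon * (1 / (p : ℝ))))) ≤
        Acon * (2 * n / Real.log w) *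
        (B ^ 8 * Real.exp (∑ p ∈ P, (if z < (p : ℝ) then (Acon * (1 / (p : ℝ))) / B
          else 3 * (Acon * (1 / (p : ℝ)))))) := by
      apply mul_le_mul_of_nonneg_left _ (by positivity)
      apply mul_le_mul_of_nonneg_left s5 (by positivity)
    rw [add_mul]
    linarith
  rw [hcard]
  linarith

end Pool.Agent.Lib.Pabc2
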