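import Mathlib
import Pool.Agent.Lib.Pabc2.Count
import Pool.Agent.Lib.Pabc2.Asymp

open Finset Filter Topology

namespace Pool.Agent.Lib.Pabc2

theorem sum_ite_bound (n : ℕ) (z B A : ℝ) (hA : 0 < A) (hz : 1 < z)
    (hB : 1 + A * (9 * (1 + Real.log (1 + Real.log n))) ≤ B) (hB1 : 1 ≤ B) :
    ∑ p ∈ Nat.primesLE n, (if z < (p : ℝ) then (A * (1 / (p : ℝ))) / B
          else 3 * (A * (1 / (p : ℝ)))) ≤
      1 + 3 * (A * (9 * (1 + Real.log (1 + Real.log z)))) := by
  rw [Finset.sum_ite]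
  have h1 : ∑ p ∈ (Nat.primesLE n).filter (fun p : ℕ => z < (p : ℝ)), (A * (1 / (p : ℝ))) / B ≤ 1 := by
    calc _ ≤ ∑ p ∈ Nat.primesLE n, (A * (1 / (p : ℝ))) / B := by
          apply Finset.sum_le_sum_of_subset_of_nonneg (Finset.filter_subset _ _)
          intro p _ _
          have : 0 < B := by linarith
          positivity
      _ = (A * ∑ p ∈ Nat.primesLE n, (1 / (p : ℝ))) / B := by
          rw [← Finset.sum_div, Finset.mul_sum]
      _ ≤ 1 := by
          rw [div_le_one (by linarith)]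
          have := mul_le_mul_of_nonneg_left (mertens n) hA.le
          linarith
  have h2 : ∑ p ∈ (Nat.primesLE n).filter (fun p : ℕ => ¬ z < (p : ℝ)), 3 * (A * (1 / (p : ℝ))) ≤
      3 * (A * (9 * (1 + Real.log (1 + Real.log z)))) := by
    calc _ ≤ ∑ p ∈ Nat.primesLE ⌊z⌋₊, 3 * (A * (1 / (p : ℝ))) := by
          apply Finset.sum_le_sum_of_subset_of_nonneg
          · intro p hp
            rw [Finset.mem_filter, Nat.mem_primesLE] at hp
            rw [Nat.mem_primesLE]
            exact ⟨Nat.le_floor (not_lt.mp hp.2), hp.1.2⟩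
          · intro p _ _
            positivity
      _ = 3 * (A * ∑ p ∈ Nat.primesLE ⌊z⌋₊, (1 / (p : ℝ))) := by
          rw [Finset.mul_sum, Finset.mul_sum]
      _ ≤ 3 * (A * (9 * (1 + Real.log (1 + Real.log ⌊z⌋₊)))) := by
          apply mul_le_mul_of_nonneg_left _ (by norm_num)
          exact mul_le_mul_of_nonneg_left (mertens _) hA.le
      _ ≤ _ := by
          have hz1 : (1 : ℝ) ≤ (⌊z⌋₊ : ℝ) := by
            have : 1 ≤ ⌊z⌋₊ := Nat.le_floor (by exact_mod_cast hz.le)
            exact_mod_cast this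
          have e1 : Real.log ⌊z⌋₊ ≤ Real.log z :=
            Real.log_le_log (by linarith) (Nat.floor_le (by linarith))
          have e2 : 0 ≤ Real.log (⌊z⌋₊ : ℝ) := Real.log_nonneg hz1
          have e3 : Real.log (1 + Real.log ⌊z⌋₊) ≤ Real.log (1 + Real.log z) :=
            Real.log_le_log (by linarith) (by linarith)
          gcongr
  linarith

theorem main :
    ∀ᶠ n : ℕ in atTop, ∀ T : Finset (ℕ × ℕ), (∀ t ∈ T, IsT t ∧ rd t ≤ n) →
      (T.card : ℝ) ≤ (n : ℝ) * Real.log (Real.log n) ^ (18 + 162 * Acon) / Real.log n := by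
  have hev := asymp Acon (((⌊Real.exp 1000⌋₊ + 1) * (⌊Real.exp 1000⌋₊ + 1) : ℕ) : ℝ) Acon_pos
  have hlim : Tendsto (fun n : ℕ => Real.log (n : ℝ)) atTop atTop :=
    Real.tendsto_log_atTop.comp tendsto_natCast_atTop_atTop
  filter_upwards [hlim.eventually hev, hlim.eventually (eventually_ge_atTop 3),
    eventually_ge_atTop 1] with n hn hn1 hn2 T hT
  set x := Real.log (n : ℝ) with hx
  have hA := Acon_pos
  have hn0 : (0 : ℝ) < n := by
    have : (1 : ℝ) ≤ n := by exact_mod_cast hn2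
    linarith
  have hexp : Real.exp x = n := Real.exp_log hn0
  have hl : 0 ≤ Real.log (1 + x) := Real.log_nonneg (by linarith)
  have hly : 0 < Real.log x := Real.log_pos (by linarith)
  set B := 1 + Acon * (9 * (1 + Real.log (1 + x))) with hB
  have hB1 : 1 ≤ B := by
    rw [hB]
    have : 0 ≤ Acon * (9 * (1 + Real.log (1 + x))) := by positivity
    linarith
  have hκ : 0 < 27 * Acon + 1 := by positivity
  have hz : 1 < x ^ (27 * Acon + 1) := Real.one_lt_rpow (by linarith) hκ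
  have hw : 1 < Real.exp (x / 32) := Real.one_lt_exp_iff.mpr (by linarith)
  have hw32 : Real.exp (x / 32) ^ 32 ≤ (n : ℝ) := by
    rw [← Real.exp_nat_mul, ← hexp]
    apply le_of_eq
    congr 1
    push_cast
    ring
  have hc := count n hn2 T hT (x ^ (27 * Acon + 1)) (Real.exp (x / 32)) B hz hw hw32 hB1
  have hs := sum_ite_bound n (x ^ (27 * Acon + 1)) B Acon hA hz (le_of_eq hB.symm) hB1
  rw [Real.log_rpow (by linarith)] at hs hc
  rw [Real.log_exp, ← hx] at hc
  have hm : Real.exp (Acon * ∑ p ∈ Nat.primesLE n, 1 / (p : ℝ)) ≤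
      Real.exp (Acon * (9 * (1 + Real.log (1 + x)))) :=
    Real.exp_le_exp.mpr (mul_le_mul_of_nonneg_left (mertens n) hA.le)
  have hs' := Real.exp_le_exp.mpr hs
  rw [hexp] at hn
  refine le_trans hc (le_trans ?_ hn)
  have hx0 : 0 < x := by linarith
  have hB0 : 0 < B := by linarith
  gcongr

/-- Pairs `(a, b)` of coprime positive integers with `rad(ab(a+b)) ≤ Y`. -/
def PairSet (Y : ℕ) : Set (ℕ × ℕ) :=
  {t | 0 < t.1 ∧ 0 < t.2 ∧ Nat.Coprime t.1 t.2 ∧
    ∏ p ∈ (t.1 * t.2 * (t.1 + t.2)).primeFactors, p ≤ Y}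

theorem main2 :
    ∀ᶠ n : ℕ in atTop, ∀ T : Finset (ℕ × ℕ), (∀ t ∈ T, t ∈ PairSet n) →
      (T.card : ℝ) ≤ (n : ℝ) * Real.log (Real.log n) ^ (19 + 162 * Acon) / Real.log n := by
  have hlim : Tendsto (fun n : ℕ => Real.log (n : ℝ)) atTop atTop :=
    Real.tendsto_log_atTop.comp tendsto_natCast_atTop_atTop
  have h2 := Real.tendsto_log_atTop.comp hlim
  filter_upwards [main, h2.eventually (eventually_ge_atTop 2),
    hlim.eventually (eventually_ge_atTop 1)] with n hn hn2 hn1 T hT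
  classical
  simp only [Function.comp] at hn2
  set x := Real.log (n : ℝ) with hx
  have hx0 : 0 < x := by linarith
  set y := Real.log x with hy
  have h1 := hn (T.filter (fun t => t.1 ≤ t.2)) (by
    intro t ht'
    rw [Finset.mem_filter] at ht'
    obtain ⟨a1, a2, a3, a4⟩ := hT t ht'.1
    exact ⟨⟨a1, ht'.2, a3⟩, a4⟩)
  have h3 := hn ((T.filter (fun t => ¬ t.1 ≤ t.2)).image Prod.swap) (by
    intro t ht'
    rw [Finset.mem_image] at ht'
    obtain ⟨s, hs, rfl⟩ := ht'
    rw [Finset.mem_filter] at hs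
    obtain ⟨a1, a2, a3, a4⟩ := hT s hs.1
    refine ⟨⟨a2, ?_, a3.symm⟩, ?_⟩
    · simp only [Prod.fst_swap, Prod.snd_swap]
      omega
    · unfold rd N
      simp only [Prod.fst_swap, Prod.snd_swap]
      rw [mul_comm s.2 s.1, add_comm s.2 s.1]
      exact a4)
  rw [Finset.card_image_of_injective _ Prod.swap_injective] at h3
  have hcard : (T.card : ℝ) = (T.filter (fun t => t.1 ≤ t.2)).card +
      (T.filter (fun t => ¬ t.1 ≤ t.2)).card := by
    exact_mod_cast (Finset.card_filter_add_card_filter_not (s := T) (fun t => t.1 ≤ t.2)).symm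
  have hfin : (n : ℝ) * y ^ (18 + 162 * Acon) / x + (n : ℝ) * y ^ (18 + 162 * Acon) / x ≤
      (n : ℝ) * y ^ (19 + 162 * Acon) / x := by
    have hy0 : 0 < y := by linarith
    have e1 : y ^ (19 + 162 * Acon) = y ^ (18 + 162 * Acon) * y := by
      rw [← Real.rpow_add_one hy0.ne']
      congr 1
      ring
    rw [e1, ← add_div]
    apply div_le_div_of_nonneg_right _ hx0.le
    have e4 : 0 ≤ (n : ℝ) * y ^ (18 + 162 * Acon) := by positivity
    nlinarith
  linarith

theorem finite_of_card_le (s : Set (ℕ × ℕ)) (C : ℝ)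
    (h : ∀ T : Finset (ℕ × ℕ), (∀ t ∈ T, t ∈ s) → (T.card : ℝ) ≤ C) : s.Finite := by
  by_contra hinf
  have hinf' : s.Infinite := hinf
  obtain ⟨T, hT, hc⟩ := hinf'.exists_subset_card_eq (⌊C⌋₊ + 1)
  have := h T (fun t ht => hT ht)
  rw [hc] at this
  push_cast at this
  linarith [Nat.lt_floor_add_one C]

theorem pairSet_count :
    ∀ᶠ n : ℕ in atTop, (PairSet n).Finite ∧ ((PairSet n).ncard : ℝ) ≤
      (n : ℝ) * Real.log (Real.log n) ^ (19 + 162 * Acon) / Real.log n := by
  filter_upwards [main2] with n hn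
  have hf : (PairSet n).Finite := finite_of_card_le _ _ hn
  refine ⟨hf, ?_⟩
  rw [Set.ncard_eq_toFinset_card _ hf]
  apply hn
  intro t ht'
  exact (Set.Finite.mem_toFinset hf).mp ht'

end Pool.Agent.Lib.Pabc2
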