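import Mathlib
import Pool.Agent.Lib.Pabc2.Mertens

open Finset

namespace Pool.Agent.Lib.Pabc2

/-- the weight `∏_{p ∣ x} 1/(ps) * x^{-σ}`. -/
noncomputable def fw (s σ : ℝ) (x : ℕ) : ℝ :=
  (∏ p ∈ x.primeFactors, 1 / ((p : ℝ) * s)) * (x : ℝ) ^ (-σ)

theorem fw_nonneg {s : ℝ} (hs : 0 < s) (σ : ℝ) (x : ℕ) : 0 ≤ fw s σ x := by
  unfold fw
  apply mul_nonneg
  · apply Finset.prod_nonneg
    intro p _
    positivity
  · positivity

theorem fw_one (s σ : ℝ) : fw s σ 1 = 1 := by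
  unfold fw
  simp

theorem fw_mul (s σ : ℝ) {m n : ℕ} (h : Nat.Coprime m n) :
    fw s σ (m * n) = fw s σ m * fw s σ n := by
  unfold fw
  rw [h.primeFactors_mul, Finset.prod_union h.disjoint_primeFactors]
  push_cast
  rw [Real.mul_rpow (by positivity) (by positivity)]
  ring

theorem fw_pow {s σ : ℝ} {p : ℕ} (hp : p.Prime) (e : ℕ) :
    fw s σ (p ^ (e + 1)) = 1 / ((p : ℝ) * s) * (((p : ℝ) ^ (-σ)) * ((p : ℝ) ^ (-σ)) ^ e) := by
  unfold fw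
  rw [Nat.primeFactors_prime_pow (Nat.succ_ne_zero e) hp, Finset.prod_singleton]
  congr 1
  push_cast
  rw [← Real.rpow_natCast, ← Real.rpow_mul (by positivity), ← pow_succ', ← Real.rpow_natCast,
    ← Real.rpow_mul (by positivity)]
  congr 1
  ring

theorem rpow_neg_lt_one {σ : ℝ} (hσ : 0 < σ) {p : ℕ} (hp : p.Prime) : (p : ℝ) ^ (-σ) < 1 := by
  apply Real.rpow_lt_one_of_one_lt_of_neg
  · exact_mod_cast hp.one_lt
  · linarith

theorem hasSum_fw_pow {s σ : ℝ} (hσ : 0 < σ) {p : ℕ} (hp : p.Prime) :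
    HasSum (fun e : ℕ => fw s σ (p ^ e))
      (1 + 1 / ((p : ℝ) * s) * (((p : ℝ) ^ (-σ)) * (1 - (p : ℝ) ^ (-σ))⁻¹)) := by
  have h1 : HasSum (fun e : ℕ => fw s σ (p ^ (e + 1)))
      (1 / ((p : ℝ) * s) * (((p : ℝ) ^ (-σ)) * (1 - (p : ℝ) ^ (-σ))⁻¹)) := by
    simp_rw [fw_pow hp]
    apply HasSum.mul_left
    apply HasSum.mul_left
    exact hasSum_geometric_of_lt_one (by positivity) (rpow_neg_lt_one hσ hp)
  have h2 := (hasSum_nat_add_iff' (f := fun e : ℕ => fw s σ (p ^ e)) 1).mp (by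
    have : HasSum (fun e : ℕ => fw s σ (p ^ (e + 1)))
      ((1 + 1 / ((p : ℝ) * s) * (((p : ℝ) ^ (-σ)) * (1 - (p : ℝ) ^ (-σ))⁻¹)) -
        ∑ i ∈ Finset.range 1, fw s σ (p ^ i)) := by
      rw [Finset.sum_range_one, pow_zero, fw_one]
      simpa using h1
    exact this)
  exact h2

theorem factor_le {s σ : ℝ} (hs : 0 < s) (hσ : 0 < σ) {p : ℕ} (hp : p.Prime) :
    1 + 1 / ((p : ℝ) * s) * (((p : ℝ) ^ (-σ)) * (1 - (p : ℝ) ^ (-σ))⁻¹) ≤
      Real.exp (2 / (s * σ) * (1 / (p : ℝ))) := by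
  have hp0 : (0 : ℝ) < p := by exact_mod_cast hp.pos
  have hp2 : (2 : ℝ) ≤ p := by exact_mod_cast hp.two_le
  set v := (p : ℝ) ^ (-σ) with hv
  have hv0 : 0 < v := Real.rpow_pos_of_pos hp0 _
  have hv1 : v < 1 := rpow_neg_lt_one hσ hp
  have hvexp : v = Real.exp (-(σ * Real.log p)) := by
    rw [hv, Real.rpow_def_of_pos hp0]
    congr 1
    ring
  have hlp : 1 / 2 ≤ Real.log p := by
    have h1 : Real.log 2 ≤ Real.log p := Real.log_le_log (by norm_num) hp2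
    have := Real.log_two_gt_d9
    linarith
  -- v/(1-v) = 1/(v⁻¹ - 1) ≤ 1/(σ log p) ≤ 2/σ
  have h1 : v * (1 - v)⁻¹ ≤ 2 / σ := by
    rw [← div_eq_mul_inv, div_le_div_iff₀ (by linarith) hσ]
    have h2 : 1 + σ * Real.log p ≤ v⁻¹ := by
      rw [hvexp, ← Real.exp_neg, neg_neg]
      linarith [Real.add_one_le_exp (σ * Real.log p)]
    have h3 : (1 + σ * Real.log p) * v ≤ 1 := by
      have := mul_le_mul_of_nonneg_right h2 hv0.le
      rwa [inv_mul_cancel₀ hv0.ne'] at this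
    have h4 : σ / 2 ≤ σ * Real.log p := by nlinarith
    nlinarith
  have h5 : 1 / ((p : ℝ) * s) * (v * (1 - v)⁻¹) ≤ 2 / (s * σ) * (1 / (p : ℝ)) := by
    calc _ ≤ 1 / ((p : ℝ) * s) * (2 / σ) := mul_le_mul_of_nonneg_left h1 (by positivity)
      _ = _ := by field_simp
  linarith [Real.add_one_le_exp (2 / (s * σ) * (1 / (p : ℝ)))]

/-- sum of the weight over integers composed of primes at most `n`. -/
theorem sum_fw_le (n : ℕ) {s σ : ℝ} (hs : 0 < s) (hσ : 0 < σ) (F : Finset ℕ)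
    (hF : ∀ x ∈ F, x ≠ 0 ∧ x.primeFactors ⊆ Nat.primesLE n) :
    ∑ x ∈ F, fw s σ x ≤ Real.exp (2 / (s * σ) * ∑ p ∈ Nat.primesLE n, 1 / (p : ℝ)) := by
  classical
  have hsum := EulerProduct.summable_and_hasSum_smoothNumbers_prod_primesBelow_tsum
    (f := fw s σ) (fw_one s σ) (fun {m n} h => fw_mul s σ h) (fun {p} hp => by
      have := (hasSum_fw_pow (s := s) hσ hp).summable
      refine this.congr ?_
      intro e
      rw [Real.norm_of_nonneg (fw_nonneg hs σ _)]) (n + 1)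
  obtain ⟨hs1, hs2⟩ := hsum
  have hmem : ∀ x ∈ F, x ∈ Nat.smoothNumbers (n + 1) := by
    intro x hx
    refine ⟨(hF x hx).1, ?_⟩
    intro p hp
    have := (hF x hx).2 (List.mem_toFinset.mpr hp)
    rw [Nat.mem_primesLE] at this
    omega
  set G : Finset (Nat.smoothNumbers (n + 1)) := F.subtype (fun x => x ∈ Nat.smoothNumbers (n + 1))
    with hG
  have h1 : ∑ x ∈ F, fw s σ x = ∑ x ∈ G, fw s σ x := by
    rw [hG, Finset.sum_subtype_of_mem (fun x => fw s σ x) hmem]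
  rw [h1]
  have h2 : ∑ x ∈ G, fw s σ x ≤ ∏ p ∈ (n + 1).primesBelow, ∑' e : ℕ, fw s σ (p ^ e) := by
    apply sum_le_hasSum G _ hs2
    intro x _
    exact fw_nonneg hs σ _
  refine h2.trans ?_
  rw [Finset.mul_sum, Real.exp_sum]
  apply Finset.prod_le_prod
  · intro p _
    exact tsum_nonneg (fun e => fw_nonneg hs σ _)
  · intro p hp
    have hp' : p.Prime := Nat.prime_of_mem_primesBelow hp
    rw [(hasSum_fw_pow hσ hp').tsum_eq]
    exact factor_le hs hσ hp'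

/-- `W(x) = ∏_{p ∣ x} p s`. -/
noncomputable def Wt (s : ℝ) (x : ℕ) : ℝ := ∏ p ∈ x.primeFactors, ((p : ℝ) * s)

theorem Wt_pos {s : ℝ} (hs : 0 < s) (x : ℕ) : 0 < Wt s x := by
  unfold Wt
  apply Finset.prod_pos
  intro p hp
  have : (0 : ℝ) < p := by exact_mod_cast (Nat.prime_of_mem_primeFactors hp).pos
  positivity

theorem inv_Wt_le {s σ H : ℝ} (hs : 0 < s) (hσ : 0 < σ) {x : ℕ} (hx : x ≠ 0)
    (hxH : Real.log x ≤ H) : (Wt s x)⁻¹ ≤ Real.exp (H * σ) * fw s σ x := by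
  unfold fw Wt
  have hx0 : (0 : ℝ) < x := by exact_mod_cast Nat.pos_of_ne_zero hx
  rw [← Finset.prod_inv_distrib]
  have e1 : ∏ p ∈ x.primeFactors, ((p : ℝ) * s)⁻¹ = ∏ p ∈ x.primeFactors, 1 / ((p : ℝ) * s) := by
    apply Finset.prod_congr rfl
    intro p _
    rw [one_div]
  rw [e1]
  have hnn : 0 ≤ ∏ p ∈ x.primeFactors, 1 / ((p : ℝ) * s) := by
    apply Finset.prod_nonneg
    intro p _
    positivity
  have e2 : 1 ≤ Real.exp (H * σ) * (x : ℝ) ^ (-σ) := by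
    rw [Real.rpow_def_of_pos hx0, ← Real.exp_add]
    apply Real.one_le_exp
    nlinarith
  calc _ = (∏ p ∈ x.primeFactors, 1 / ((p : ℝ) * s)) * 1 := by ring
    _ ≤ (∏ p ∈ x.primeFactors, 1 / ((p : ℝ) * s)) * (Real.exp (H * σ) * (x : ℝ) ^ (-σ)) :=
      mul_le_mul_of_nonneg_left e2 hnn
    _ = _ := by ring

/-- Number of pairs `(x, y)` with `W(x) W(y) ≤ Z` and `log x, log y ≤ H`. -/
theorem card_pairs_le (n : ℕ) {s σ H Z : ℝ} (hs : 0 < s) (hσ : 0 < σ) (hZ : 0 ≤ Z)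
    (G : Finset (ℕ × ℕ))
    (hG : ∀ t ∈ G, t.1 ≠ 0 ∧ t.2 ≠ 0 ∧ t.1.primeFactors ⊆ Nat.primesLE n ∧
      t.2.primeFactors ⊆ Nat.primesLE n ∧ Real.log t.1 ≤ H ∧ Real.log t.2 ≤ H ∧
      Wt s t.1 * Wt s t.2 ≤ Z) :
    (G.card : ℝ) ≤ Z * Real.exp (2 * H * σ) *
      Real.exp (4 / (s * σ) * ∑ p ∈ Nat.primesLE n, 1 / (p : ℝ)) := by
  classical
  have h1 : ∀ t ∈ G, (1 : ℝ) ≤ Z * Real.exp (2 * H * σ) * (fw s σ t.1 * fw s σ t.2) := by
    intro t ht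
    obtain ⟨g1, g2, _, _, g5, g6, g7⟩ := hG t ht
    have w1 := Wt_pos hs t.1
    have w2 := Wt_pos hs t.2
    have i1 := inv_Wt_le hs hσ g1 g5
    have i2 := inv_Wt_le hs hσ g2 g6
    have i3 : (Wt s t.1)⁻¹ * (Wt s t.2)⁻¹ ≤
        (Real.exp (H * σ) * fw s σ t.1) * (Real.exp (H * σ) * fw s σ t.2) :=
      mul_le_mul i1 i2 (inv_pos.mpr w2).le
        (mul_nonneg (Real.exp_pos _).le (fw_nonneg hs _ _))
    have i4 : (1 : ℝ) ≤ Z * ((Wt s t.1)⁻¹ * (Wt s t.2)⁻¹) := by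
      rw [← mul_inv, ← div_eq_mul_inv, one_le_div (mul_pos w1 w2)]
      exact g7
    have i5 : Real.exp (2 * H * σ) = Real.exp (H * σ) * Real.exp (H * σ) := by
      rw [← Real.exp_add]
      congr 1
      ring
    calc (1 : ℝ) ≤ Z * ((Wt s t.1)⁻¹ * (Wt s t.2)⁻¹) := i4
      _ ≤ Z * ((Real.exp (H * σ) * fw s σ t.1) * (Real.exp (H * σ) * fw s σ t.2)) :=
        mul_le_mul_of_nonneg_left i3 hZ
      _ = _ := by rw [i5]; ring
  have h2 : (G.card : ℝ) ≤ ∑ t ∈ G, Z * Real.exp (2 * H * σ) * (fw s σ t.1 * fw s σ t.2) := by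
    calc (G.card : ℝ) = ∑ _t ∈ G, (1 : ℝ) := by simp
      _ ≤ _ := Finset.sum_le_sum h1
  have hsub : G ⊆ (G.image Prod.fst) ×ˢ (G.image Prod.snd) := by
    intro t ht
    rw [Finset.mem_product]
    exact ⟨Finset.mem_image_of_mem _ ht, Finset.mem_image_of_mem _ ht⟩
  have h3 : ∑ t ∈ G, (fw s σ t.1 * fw s σ t.2) ≤
      (∑ x ∈ G.image Prod.fst, fw s σ x) * (∑ y ∈ G.image Prod.snd, fw s σ y) := by
    rw [Finset.sum_mul_sum, ← Finset.sum_product']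
    apply Finset.sum_le_sum_of_subset_of_nonneg hsub
    intro t _ _
    exact mul_nonneg (fw_nonneg hs _ _) (fw_nonneg hs _ _)
  have h4 : ∑ x ∈ G.image Prod.fst, fw s σ x ≤
      Real.exp (2 / (s * σ) * ∑ p ∈ Nat.primesLE n, 1 / (p : ℝ)) := by
    apply sum_fw_le n hs hσ
    intro x hx
    rw [Finset.mem_image] at hx
    obtain ⟨t, ht, rfl⟩ := hx
    exact ⟨(hG t ht).1, (hG t ht).2.2.1⟩
  have h5 : ∑ x ∈ G.image Prod.snd, fw s σ x ≤
      Real.exp (2 / (s * σ) * ∑ p ∈ Nat.primesLE n, 1 / (p : ℝ)) := by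
    apply sum_fw_le n hs hσ
    intro x hx
    rw [Finset.mem_image] at hx
    obtain ⟨t, ht, rfl⟩ := hx
    exact ⟨(hG t ht).2.1, (hG t ht).2.2.2.1⟩
  have h6 : Real.exp (4 / (s * σ) * ∑ p ∈ Nat.primesLE n, 1 / (p : ℝ)) =
      Real.exp (2 / (s * σ) * ∑ p ∈ Nat.primesLE n, 1 / (p : ℝ)) *
      Real.exp (2 / (s * σ) * ∑ p ∈ Nat.primesLE n, 1 / (p : ℝ)) := by
    rw [← Real.exp_add]
    congr 1
    ring
  rw [← Finset.mul_sum] at h2
  refine h2.trans ?_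
  apply mul_le_mul_of_nonneg_left _ (by positivity)
  rw [h6]
  refine h3.trans ?_
  apply mul_le_mul h4 h5 (Finset.sum_nonneg (fun x _ => fw_nonneg hs _ _)) (Real.exp_pos _).le

end Pool.Agent.Lib.Pabc2
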