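import Mathlib
import Pool.Agent.Lib.Pabc2.Count
import Pool.Agent.Lib.Pabc2.Euler

open Finset

namespace Pool.Agent.Lib.Pabc2

theorem Wt_mul (s : ℝ) {m n : ℕ} (h : Nat.Coprime m n) : Wt s (m * n) = Wt s m * Wt s n := by
  unfold Wt
  rw [h.primeFactors_mul, Finset.prod_union h.disjoint_primeFactors]

theorem Wt_N {t : ℕ × ℕ} (h : IsT t) (s : ℝ) :
    Wt s (N t) = Wt s t.1 * Wt s t.2 * Wt s (t.1 + t.2) := by
  have h1 : Nat.Coprime t.1 t.2 := h.2.2
  have h2 : Nat.Coprime t.1 (t.1 + t.2) := by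
    rw [Nat.coprime_self_add_right]
    exact h1
  have h3 : Nat.Coprime t.2 (t.1 + t.2) := by
    rw [Nat.coprime_add_self_right]
    exact h1.symm
  unfold N
  rw [Wt_mul s (Nat.Coprime.mul_left h2 h3), Wt_mul s h1]

theorem Wt_eq (s : ℝ) (x : ℕ) :
    Wt s x = ((∏ p ∈ x.primeFactors, p : ℕ) : ℝ) * s ^ x.primeFactors.card := by
  unfold Wt
  rw [Finset.prod_mul_distrib, Finset.prod_const]
  push_cast
  rfl

/-- Triples with many prime factors. -/
theorem count_many (n : ℕ) (T : Finset (ℕ × ℕ)) (k τ : ℝ) (hτ : 1 ≤ τ)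
    (hT : ∀ t ∈ T, IsT t ∧ rd t ≤ n ∧ 1000 ≤ ht t ∧ k ≤ ((N t).primeFactors.card : ℝ)) :
    (T.card : ℝ) ≤ 909 * ((τ ^ k)⁻¹ * (n * Real.exp (Acon * τ * ∑ p ∈ Nat.primesLE n, 1 / (p : ℝ)))) := by
  classical
  set P := Nat.primesLE n with hP
  have hPp : ∀ p ∈ P, p.Prime := fun p hp => (Nat.mem_primesLE.mp hp).2
  have hA := Acon_pos
  have hτ0 : 0 < τ := by linarith
  have hsubP : ∀ t ∈ T, (N t).primeFactors ⊆ P := by
    intro t htT p hp
    rw [hP, Nat.mem_primesLE]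
    refine ⟨le_trans ?_ (hT t htT).2.1, Nat.prime_of_mem_primeFactors hp⟩
    exact Nat.le_of_dvd (Finset.prod_pos (fun q hq => (Nat.prime_of_mem_primeFactors hq).pos))
      (Finset.dvd_prod_of_mem (fun p => p) hp)
  refine (card_le_sum_of_good T
    (P.powerset.filter (fun S => ((∏ p ∈ S, p : ℕ) : ℝ) ≤ n ∧ k ≤ (S.card : ℝ)))
    (fun t => (N t).primeFactors) ?_ ?_).trans ?_
  · intro t h
    obtain ⟨_, h2, _, h4⟩ := hT t h
    rw [Finset.mem_filter, Finset.mem_powerset]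
    exact ⟨hsubP t h, by exact_mod_cast h2, h4⟩
  · intro t h
    exact good_primeFactors (hT t h).1 (hT t h).2.2.1
  · apply mul_le_mul_of_nonneg_left _ (by norm_num)
    have hτk : 0 < τ ^ k := Real.rpow_pos_of_pos hτ0 _
    calc ∑ S ∈ P.powerset.filter (fun S => ((∏ p ∈ S, p : ℕ) : ℝ) ≤ n ∧ k ≤ (S.card : ℝ)),
          Acon ^ S.card
        ≤ ∑ S ∈ P.powerset.filter (fun S => ((∏ p ∈ S, p : ℕ) : ℝ) ≤ n ∧ k ≤ (S.card : ℝ)),
          (τ ^ k)⁻¹ * (Acon * τ) ^ S.card := by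
          apply Finset.sum_le_sum
          intro S hS
          rw [Finset.mem_filter] at hS
          have h1 : τ ^ k ≤ τ ^ S.card := by
            rw [← Real.rpow_natCast]
            exact Real.rpow_le_rpow_of_exponent_le hτ hS.2.2
          rw [mul_pow, inv_mul_eq_div, le_div_iff₀ hτk]
          exact mul_le_mul_of_nonneg_left h1 (by positivity)
      _ ≤ ∑ S ∈ P.powerset.filter (fun S => ((∏ p ∈ S, p : ℕ) : ℝ) ≤ n),
          (τ ^ k)⁻¹ * (Acon * τ) ^ S.card := by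
          apply Finset.sum_le_sum_of_subset_of_nonneg
          · intro S hS
            rw [Finset.mem_filter] at hS ⊢
            exact ⟨hS.1, hS.2.1⟩
          · intro S _ _
            positivity
      _ = (τ ^ k)⁻¹ * ∑ S ∈ P.powerset.filter (fun S => ((∏ p ∈ S, p : ℕ) : ℝ) ≤ n),
          (Acon * τ) ^ S.card := by rw [Finset.mul_sum]
      _ ≤ _ := by
          apply mul_le_mul_of_nonneg_left _ (by positivity)
          exact sum_small P hPp (Acon * τ) n (by positivity) (by positivity)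

/-- Triples with few prime factors and `log c ≤ H`. -/
theorem count_few (n : ℕ) (T : Finset (ℕ × ℕ)) (k s σ H Z : ℝ) (hs : 1 ≤ s) (hσ : 0 < σ)
    (hZ : 0 ≤ Z) (hZ3 : (n * s ^ k) ^ 2 ≤ Z ^ 3)
    (hT : ∀ t ∈ T, IsT t ∧ rd t ≤ n ∧ ht t ≤ H ∧ ((N t).primeFactors.card : ℝ) ≤ k) :
    (T.card : ℝ) ≤ 3 * (Z * Real.exp (2 * H * σ) *
      Real.exp (4 / (s * σ) * ∑ p ∈ Nat.primesLE n, 1 / (p : ℝ))) := by
  classical
  have hs0 : 0 < s := by linarith
  set R := Z * Real.exp (2 * H * σ) *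
      Real.exp (4 / (s * σ) * ∑ p ∈ Nat.primesLE n, 1 / (p : ℝ)) with hR
  have hsubP : ∀ t ∈ T, (N t).primeFactors ⊆ Nat.primesLE n := by
    intro t htT p hp
    rw [Nat.mem_primesLE]
    refine ⟨le_trans ?_ (hT t htT).2.1, Nat.prime_of_mem_primeFactors hp⟩
    exact Nat.le_of_dvd (Finset.prod_pos (fun q hq => (Nat.prime_of_mem_primeFactors hq).pos))
      (Finset.dvd_prod_of_mem (fun p => p) hp)
  have hsub1 : ∀ t ∈ T, t.1.primeFactors ⊆ Nat.primesLE n := by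
    intro t htT
    refine (Nat.primeFactors_mono ?_ (hT t htT).1.N_ne).trans (hsubP t htT)
    exact ⟨t.2 * (t.1 + t.2), by unfold N; ring⟩
  have hsub2 : ∀ t ∈ T, t.2.primeFactors ⊆ Nat.primesLE n := by
    intro t htT
    refine (Nat.primeFactors_mono ?_ (hT t htT).1.N_ne).trans (hsubP t htT)
    exact ⟨t.1 * (t.1 + t.2), by unfold N; ring⟩
  have hsub3 : ∀ t ∈ T, (t.1 + t.2).primeFactors ⊆ Nat.primesLE n := by
    intro t htT
    refine (Nat.primeFactors_mono ?_ (hT t htT).1.N_ne).trans (hsubP t htT)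
    exact ⟨t.1 * t.2, by unfold N; ring⟩
  have hprod : ∀ t ∈ T, Wt s t.1 * Wt s t.2 * Wt s (t.1 + t.2) ≤ n * s ^ k := by
    intro t htT
    obtain ⟨h1, h2, _, h4⟩ := hT t htT
    rw [← Wt_N h1, Wt_eq]
    have h2' : ((∏ p ∈ (N t).primeFactors, p : ℕ) : ℝ) ≤ n := by exact_mod_cast h2
    apply mul_le_mul h2' _ (by positivity) (by positivity)
    rw [← Real.rpow_natCast]
    exact Real.rpow_le_rpow_of_exponent_le hs h4
  have hlog3 : ∀ t ∈ T, Real.log ((t.1 + t.2 : ℕ) : ℝ) ≤ H := by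
    intro t htT
    have := (hT t htT).2.2.1
    unfold ht at this
    push_cast
    exact this
  set T1 := T.filter (fun t => Wt s t.1 * Wt s t.2 ≤ Z) with hT1
  set T2 := T.filter (fun t => Wt s t.1 * Wt s (t.1 + t.2) ≤ Z) with hT2
  set T3 := T.filter (fun t => Wt s t.2 * Wt s (t.1 + t.2) ≤ Z) with hT3
  have hcov : T ⊆ T1 ∪ (T2 ∪ T3) := by
    intro t htT
    by_contra hcon
    rw [Finset.mem_union, Finset.mem_union, hT1, hT2, hT3, Finset.mem_filter, Finset.mem_filter,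
      Finset.mem_filter] at hcon
    push Not at hcon
    obtain ⟨c1, c2, c3⟩ := hcon
    have c1 := c1 htT
    have c2 := c2 htT
    have c3 := c3 htT
    have w1 := Wt_pos hs0 t.1
    have w2 := Wt_pos hs0 t.2
    have w3 := Wt_pos hs0 (t.1 + t.2)
    have hp := hprod t htT
    have e1 : Z ^ 3 < (Wt s t.1 * Wt s t.2 * Wt s (t.1 + t.2)) ^ 2 := by
      calc Z ^ 3 = Z * Z * Z := by ring
        _ ≤ (Wt s t.1 * Wt s t.2) * (Wt s t.1 * Wt s (t.1 + t.2)) * Z := by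
          gcongr
        _ < (Wt s t.1 * Wt s t.2) * (Wt s t.1 * Wt s (t.1 + t.2)) *
            (Wt s t.2 * Wt s (t.1 + t.2)) := by
          apply mul_lt_mul_of_pos_left c3
          positivity
        _ = _ := by ring
    have e2 : (Wt s t.1 * Wt s t.2 * Wt s (t.1 + t.2)) ^ 2 ≤ (n * s ^ k) ^ 2 := by
      apply pow_le_pow_left₀ (by positivity) hp
    linarith
  have b1 : (T1.card : ℝ) ≤ R := by
    apply card_pairs_le n hs0 hσ hZ
    intro t ht'
    rw [hT1, Finset.mem_filter] at ht'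
    obtain ⟨h1, h2, h3, h4⟩ := hT t ht'.1
    exact ⟨h1.1.ne', h1.pos2.ne', hsub1 t ht'.1, hsub2 t ht'.1, (log_a_le h1).trans h3,
      (log_b_le h1).trans h3, ht'.2⟩
  have b2 : (T2.card : ℝ) ≤ R := by
    have hinj : Function.Injective (fun t : ℕ × ℕ => (t.1, t.1 + t.2)) := by
      rintro ⟨a, b⟩ ⟨a', b'⟩ heq
      simp only [Prod.mk.injEq] at heq ⊢
      omega
    rw [← Finset.card_image_of_injective T2 hinj]
    apply card_pairs_le n hs0 hσ hZ
    intro t ht'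
    rw [Finset.mem_image] at ht'
    obtain ⟨t, ht', rfl⟩ := ht'
    rw [hT2, Finset.mem_filter] at ht'
    obtain ⟨h1, h2, h3, h4⟩ := hT t ht'.1
    have := h1.1
    refine ⟨h1.1.ne', by simp only; omega, hsub1 t ht'.1, hsub3 t ht'.1,
      (log_a_le h1).trans h3, hlog3 t ht'.1, ht'.2⟩
  have b3 : (T3.card : ℝ) ≤ R := by
    have hinj : Function.Injective (fun t : ℕ × ℕ => (t.2, t.1 + t.2)) := by
      rintro ⟨a, b⟩ ⟨a', b'⟩ heq
      simp only [Prod.mk.injEq] at heq ⊢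
      omega
    rw [← Finset.card_image_of_injective T3 hinj]
    apply card_pairs_le n hs0 hσ hZ
    intro t ht'
    rw [Finset.mem_image] at ht'
    obtain ⟨t, ht', rfl⟩ := ht'
    rw [hT3, Finset.mem_filter] at ht'
    obtain ⟨h1, h2, h3, h4⟩ := hT t ht'.1
    have := h1.1
    refine ⟨h1.pos2.ne', by simp only; omega, hsub2 t ht'.1, hsub3 t ht'.1,
      (log_b_le h1).trans h3, hlog3 t ht'.1, ht'.2⟩
  have hc : (T.card : ℝ) ≤ T1.card + (T2.card + T3.card) := by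
    have e1 := Finset.card_le_card hcov
    have e2 := Finset.card_union_le T1 (T2 ∪ T3)
    have e3 := Finset.card_union_le T2 T3
    exact_mod_cast e1.trans (e2.trans (Nat.add_le_add_left e3 _))
  linarith

/-- The combined bound. -/
theorem count2 (n : ℕ) (T : Finset (ℕ × ℕ)) (k τ s σ H Z : ℝ) (hτ : 1 ≤ τ) (hs : 1 ≤ s)
    (hσ : 0 < σ) (hZ : 0 ≤ Z) (hZ3 : (n * s ^ k) ^ 2 ≤ Z ^ 3)
    (hT : ∀ t ∈ T, IsT t ∧ rd t ≤ n ∧ ht t ≤ H) :
    (T.card : ℝ) ≤ ((⌊Real.exp 1000⌋₊ + 1) * (⌊Real.exp 1000⌋₊ + 1) : ℕ) +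
      (909 * ((τ ^ k)⁻¹ * (n * Real.exp (Acon * τ * ∑ p ∈ Nat.primesLE n, 1 / (p : ℝ)))) +
      3 * (Z * Real.exp (2 * H * σ) *
        Real.exp (4 / (s * σ) * ∑ p ∈ Nat.primesLE n, 1 / (p : ℝ)))) := by
  classical
  set T0 := T.filter (fun t => ht t < 1000) with hT0
  set T1 := (T.filter (fun t => ¬ ht t < 1000)).filter
    (fun t => k ≤ ((N t).primeFactors.card : ℝ)) with hT1
  set T2 := (T.filter (fun t => ¬ ht t < 1000)).filter
    (fun t => ¬ k ≤ ((N t).primeFactors.card : ℝ)) with hT2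
  have hcard : (T.card : ℝ) = T0.card + (T1.card + T2.card) := by
    rw [hT0, hT1, hT2]
    have e1 := Finset.card_filter_add_card_filter_not (s := T) (fun t => ht t < 1000)
    have e2 := Finset.card_filter_add_card_filter_not (s := T.filter (fun t => ¬ ht t < 1000))
      (fun t => k ≤ ((N t).primeFactors.card : ℝ))
    rw [← e1, ← e2]
    push_cast
    ring
  have b0 : (T0.card : ℝ) ≤ ((⌊Real.exp 1000⌋₊ + 1) * (⌊Real.exp 1000⌋₊ + 1) : ℕ) := by
    exact_mod_cast card_low T0 (fun t h => by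
      rw [hT0, Finset.mem_filter] at h
      exact ⟨(hT t h.1).1, h.2⟩)
  have b1 := count_many n T1 k τ hτ (fun t h => by
    rw [hT1, Finset.mem_filter, Finset.mem_filter] at h
    exact ⟨(hT t h.1.1).1, (hT t h.1.1).2.1, not_lt.mp h.1.2, h.2⟩)
  have b2 := count_few n T2 k s σ H Z hs hσ hZ hZ3 (fun t h => by
    rw [hT2, Finset.mem_filter, Finset.mem_filter] at h
    exact ⟨(hT t h.1.1).1, (hT t h.1.1).2.1, (hT t h.1.1).2.2, (not_le.mp h.2).le⟩)
  rw [hcard]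
  linarith

end Pool.Agent.Lib.Pabc2
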