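import Mathlib
import Pool.Agent.Lib.Pabc2.Count2
import Pool.Agent.Lib.Pabc2.Final

open Finset Filter Topology

namespace Pool.Agent.Lib.Pabc2

/-- `x^(1-δ) * log x = o(x)` in the form needed. -/
theorem eventually_rpow_log_le (C δ a : ℝ) (ha : 0 < a) (hδ : 0 < δ) :
    ∀ᶠ x in atTop, C * (x ^ (1 - δ) * Real.log x) ≤ a * x := by
  have h1 : Tendsto (fun x : ℝ => Real.log x / x ^ δ) atTop (𝓝 0) :=
    (isLittleO_log_rpow_atTop hδ).tendsto_div_nhds_zero
  have h2 := h1.const_mul C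
  rw [mul_zero] at h2
  have h3 := h2.eventually (gt_mem_nhds ha)
  filter_upwards [h3, eventually_gt_atTop 0] with x hx hx0
  have e1 : C * (x ^ (1 - δ) * Real.log x) = C * (Real.log x / x ^ δ) * x := by
    rw [Real.rpow_sub hx0, Real.rpow_one]
    ring
  rw [e1]
  exact mul_le_mul_of_nonneg_right hx.le hx0.le

theorem main_quasi (K ε : ℝ) (hK : 2 ≤ K) (hε : 0 < ε) :
    ∀ᶠ n : ℕ in atTop, ∀ T : Finset (ℕ × ℕ),
      (∀ t ∈ T, IsT t ∧ rd t ≤ n ∧ ht t ≤ Real.log n ^ K) →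
      2 * (T.card : ℝ) ≤ (n : ℝ) ^ (1 - 1 / (2 * K - 1) + ε) := by
  set κ : ℝ := 1 / (2 * K - 1) with hκ
  have hκ0 : 0 < κ := by
    rw [hκ]
    apply one_div_pos.mpr
    linarith
  have hκ1 : κ ≤ 1 / 3 := by
    rw [hκ]
    apply one_div_le_one_div_of_le (by norm_num) (by linarith)
  have hκK : κ * (2 * K - 1) = 1 := by
    rw [hκ]
    field_simp
    exact div_self (by linarith)
  set δ : ℝ := min (1 / 2) (ε / 8) with hδ
  have hδ0 : 0 < δ := by
    rw [hδ]
    exact lt_min (by norm_num) (by positivity)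
  have hδ1 : δ ≤ 1 / 2 := min_le_left _ _
  have hδε : 8 * δ ≤ ε := by
    have : δ ≤ ε / 8 := min_le_right _ _
    linarith
  have hA := Acon_pos
  have hlim : Tendsto (fun n : ℕ => Real.log (n : ℝ)) atTop atTop :=
    Real.tendsto_log_atTop.comp tendsto_natCast_atTop_atTop
  have v1 := hlim.eventually (eventually_rpow_log_le (Acon * 27) δ δ hδ0 hδ0)
  have v2 := hlim.eventually (eventually_rpow_log_le 2 δ δ hδ0 hδ0)
  have v3 := hlim.eventually (eventually_rpow_log_le (4 * 27) (2 * δ) δ hδ0 (by positivity))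
  have v4 := hlim.eventually (eventually_ge_atTop 3)
  have v5 : ∀ᶠ x : ℝ in atTop, 2 * ((((⌊Real.exp 1000⌋₊ + 1) * (⌊Real.exp 1000⌋₊ + 1) : ℕ) : ℝ) +
      912) ≤ Real.exp (ε / 2 * x) := by
    have : Tendsto (fun x : ℝ => Real.exp (ε / 2 * x)) atTop atTop :=
      Real.tendsto_exp_atTop.comp (tendsto_id.const_mul_atTop (by positivity))
    exact this.eventually (eventually_ge_atTop _)
  filter_upwards [v1, v2, v3, v4, hlim.eventually v5, eventually_ge_atTop 1] with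
    n k1 k2 k3 k4 k5 hn T hT
  set x := Real.log (n : ℝ) with hx
  have hx0 : 0 < x := by linarith
  have hn0 : (0 : ℝ) < n := by exact_mod_cast hn
  have hexp : Real.exp x = n := Real.exp_log hn0
  have hlx : 1 ≤ Real.log x := by
    rw [Real.le_log_iff_exp_le hx0]
    linarith [Real.exp_one_lt_d9]
  have hlx0 : 0 < Real.log x := by linarith
  -- parameters
  set ρ : ℝ := K - 2 + 3 * δ with hρ
  have hρ0 : 0 ≤ ρ := by rw [hρ]; linarith
  set k : ℝ := κ * x / Real.log x with hk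
  have hklog : k * Real.log x = κ * x := by
    rw [hk]
    field_simp
  set τ : ℝ := x ^ (1 - δ) with hτ
  set s : ℝ := x ^ ρ with hs
  set σ : ℝ := x ^ (1 - δ - K) with hσ
  set Z : ℝ := Real.exp (2 / 3 * (x + κ * ρ * x)) with hZ
  have hτ1 : 1 ≤ τ := Real.one_le_rpow (by linarith) (by linarith)
  have hs1 : 1 ≤ s := Real.one_le_rpow (by linarith) hρ0
  have hσ0 : 0 < σ := Real.rpow_pos_of_pos hx0 _
  have hZ0 : 0 < Z := Real.exp_pos _
  have hsk : s ^ k = Real.exp (κ * ρ * x) := by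
    rw [hs, ← Real.rpow_mul hx0.le, Real.rpow_def_of_pos hx0]
    congr 1
    calc Real.log x * (ρ * k) = (k * Real.log x) * ρ := by ring
      _ = κ * ρ * x := by rw [hklog]; ring
  have hτk : τ ^ k = Real.exp (κ * (1 - δ) * x) := by
    rw [hτ, ← Real.rpow_mul hx0.le, Real.rpow_def_of_pos hx0]
    congr 1
    calc Real.log x * ((1 - δ) * k) = (k * Real.log x) * (1 - δ) := by ring
      _ = κ * (1 - δ) * x := by rw [hklog]; ring
  have hZ3 : ((n : ℝ) * s ^ k) ^ 2 ≤ Z ^ 3 := by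
    rw [hsk, ← hexp, ← Real.exp_add, hZ, ← Real.exp_nat_mul, ← Real.exp_nat_mul]
    apply le_of_eq
    congr 1
    push_cast
    ring
  have hc := count2 n T k τ s σ (x ^ K) Z hτ1 hs1 hσ0 hZ0.le hZ3 hT
  have hM : ∑ p ∈ Nat.primesLE n, 1 / (p : ℝ) ≤ 27 * Real.log x := by
    have h1 := mertens n
    have h2 := one_add_log_le k4
    rw [← hx] at h1
    linarith
  have hM0 : 0 ≤ ∑ p ∈ Nat.primesLE n, 1 / (p : ℝ) := Finset.sum_nonneg (fun p _ => by positivity)
  -- first term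
  have t1 : (τ ^ k)⁻¹ * (n * Real.exp (Acon * τ * ∑ p ∈ Nat.primesLE n, 1 / (p : ℝ))) ≤
      Real.exp ((1 - κ + ε / 2) * x) := by
    rw [hτk, ← Real.exp_neg, ← hexp, ← Real.exp_add, ← Real.exp_add]
    apply Real.exp_le_exp.mpr
    have h1 : Acon * τ * ∑ p ∈ Nat.primesLE n, 1 / (p : ℝ) ≤ Acon * τ * (27 * Real.log x) :=
      mul_le_mul_of_nonneg_left hM (by positivity)
    have h2 : Acon * τ * (27 * Real.log x) = Acon * 27 * (x ^ (1 - δ) * Real.log x) := by
      rw [hτ]; ring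
    have h3 : κ * δ * x ≤ δ * x := by
      have : κ * δ ≤ δ := by nlinarith
      nlinarith
    nlinarith
  -- second term
  have t2 : Z * Real.exp (2 * x ^ K * σ) *
        Real.exp (4 / (s * σ) * ∑ p ∈ Nat.primesLE n, 1 / (p : ℝ)) ≤
      Real.exp ((1 - κ + ε / 2) * x) := by
    rw [hZ, ← Real.exp_add, ← Real.exp_add]
    apply Real.exp_le_exp.mpr
    have h1 : x ^ K * σ = x ^ (1 - δ) := by
      rw [hσ, ← Real.rpow_add hx0]
      congr 1
      ring
    have h2 : 2 * x ^ K * σ ≤ δ * x := by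
      rw [mul_assoc, h1]
      have h3 : 0 ≤ x ^ (1 - δ) := by positivity
      nlinarith
    have h3 : s * σ = (x ^ (1 - 2 * δ))⁻¹ := by
      rw [hs, hσ, ← Real.rpow_add hx0, ← Real.rpow_neg hx0.le]
      congr 1
      rw [hρ]
      ring
    have h4 : 4 / (s * σ) * ∑ p ∈ Nat.primesLE n, 1 / (p : ℝ) ≤ δ * x := by
      rw [h3, div_inv_eq_mul]
      calc 4 * x ^ (1 - 2 * δ) * ∑ p ∈ Nat.primesLE n, 1 / (p : ℝ) ≤
          4 * x ^ (1 - 2 * δ) * (27 * Real.log x) :=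
            mul_le_mul_of_nonneg_left hM (by positivity)
        _ = 4 * 27 * (x ^ (1 - 2 * δ) * Real.log x) := by ring
        _ ≤ δ * x := k3
    have h5 : 2 / 3 * (x + κ * ρ * x) = (1 - κ + 2 * κ * δ) * x := by
      have : κ * K = (1 + κ) / 2 := by linarith
      rw [hρ]
      calc 2 / 3 * (x + κ * (K - 2 + 3 * δ) * x) = 2 / 3 * (x + (κ * K - 2 * κ + 3 * κ * δ) * x) := by
            ring
        _ = (1 - κ + 2 * κ * δ) * x := by rw [this]; ring
    rw [h5]
    have h6 : 2 * κ * δ * x ≤ 2 * δ * x := by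
      have : κ * δ ≤ δ := by nlinarith
      nlinarith
    nlinarith
  have t0 : (1 : ℝ) ≤ Real.exp ((1 - κ + ε / 2) * x) := by
    apply Real.one_le_exp
    apply mul_nonneg _ hx0.le
    linarith
  set X := Real.exp ((1 - κ + ε / 2) * x) with hX
  set K0 : ℝ := (((⌊Real.exp 1000⌋₊ + 1) * (⌊Real.exp 1000⌋₊ + 1) : ℕ) : ℝ) with hK0
  have hK00 : 0 ≤ K0 := Nat.cast_nonneg _
  have hfin : (T.card : ℝ) ≤ (K0 + 912) * X := by
    have e1 : K0 ≤ K0 * X := by nlinarith
    linarith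
  have hlast : (n : ℝ) ^ (1 - κ + ε) = X * Real.exp (ε / 2 * x) := by
    rw [Real.rpow_def_of_pos hn0, ← hx, hX, ← Real.exp_add]
    congr 1
    ring
  rw [hlast]
  calc 2 * (T.card : ℝ) ≤ 2 * ((K0 + 912) * X) := by linarith
    _ = X * (2 * (K0 + 912)) := by ring
    _ ≤ X * Real.exp (ε / 2 * x) := by
      apply mul_le_mul_of_nonneg_left k5 (Real.exp_pos _).le

/-- From counting ordered pairs `a ≤ b` to counting all triples. -/
theorem transfer (n : ℕ) (H B : ℝ)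
    (h : ∀ T : Finset (ℕ × ℕ), (∀ t ∈ T, IsT t ∧ rd t ≤ n ∧ ht t ≤ H) → 2 * (T.card : ℝ) ≤ B)
    (S : Set (ℕ × ℕ × ℕ))
    (hS : ∀ t ∈ S, 0 < t.1 ∧ 0 < t.2.1 ∧ Nat.Coprime t.1 t.2.1 ∧ t.1 + t.2.1 = t.2.2 ∧
      ∏ p ∈ (t.1 * t.2.1 * t.2.2).primeFactors, p ≤ n ∧ Real.log t.2.2 ≤ H) :
    S.Finite ∧ (S.ncard : ℝ) ≤ B := by
  classical
  have key : ∀ T : Finset (ℕ × ℕ × ℕ), (∀ t ∈ T, t ∈ S) → (T.card : ℝ) ≤ B := by
    intro T hT
    have hinj : Set.InjOn (fun t : ℕ × ℕ × ℕ => (t.1, t.2.1)) T := by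
      rintro ⟨a, b, c⟩ h1 ⟨a', b', c'⟩ h2 heq
      simp only [Prod.mk.injEq] at heq
      obtain ⟨rfl, rfl⟩ := heq
      have e1 := (hS _ (hT _ h1)).2.2.2.1
      have e2 := (hS _ (hT _ h2)).2.2.2.1
      simp only at e1 e2
      rw [← e1, ← e2]
    set T' := T.image (fun t : ℕ × ℕ × ℕ => (t.1, t.2.1)) with hT'
    have hc : T'.card = T.card := Finset.card_image_of_injOn hinj
    have hT'p : ∀ t ∈ T', 0 < t.1 ∧ 0 < t.2 ∧ Nat.Coprime t.1 t.2 ∧ rd t ≤ n ∧ ht t ≤ H := by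
      intro t ht'
      rw [hT', Finset.mem_image] at ht'
      obtain ⟨⟨a, b, c⟩, h1, rfl⟩ := ht'
      obtain ⟨g1, g2, g3, g4, g5, g6⟩ := hS _ (hT _ h1)
      simp only at g1 g2 g3 g4 g5 g6
      subst g4
      refine ⟨g1, g2, g3, g5, ?_⟩
      unfold ht
      push_cast at g6
      exact g6
    have h1 := h (T'.filter (fun t => t.1 ≤ t.2)) (by
      intro t ht'
      rw [Finset.mem_filter] at ht'
      obtain ⟨a1, a2, a3, a4, a5⟩ := hT'p t ht'.1
      exact ⟨⟨a1, ht'.2, a3⟩, a4, a5⟩)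
    have h3 := h ((T'.filter (fun t => ¬ t.1 ≤ t.2)).image Prod.swap) (by
      intro t ht'
      rw [Finset.mem_image] at ht'
      obtain ⟨s, hs, rfl⟩ := ht'
      rw [Finset.mem_filter] at hs
      obtain ⟨a1, a2, a3, a4, a5⟩ := hT'p s hs.1
      refine ⟨⟨a2, ?_, a3.symm⟩, ?_, ?_⟩
      · simp only [Prod.fst_swap, Prod.snd_swap]
        omega
      · unfold rd N at *
        simp only [Prod.fst_swap, Prod.snd_swap]
        rw [mul_comm s.2 s.1, add_comm s.2 s.1]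
        exact a4
      · unfold ht at *
        simp only [Prod.fst_swap, Prod.snd_swap]
        rw [add_comm]
        exact a5)
    rw [Finset.card_image_of_injective _ Prod.swap_injective] at h3
    have hcard : (T'.card : ℝ) = (T'.filter (fun t => t.1 ≤ t.2)).card +
        (T'.filter (fun t => ¬ t.1 ≤ t.2)).card := by
      exact_mod_cast (Finset.card_filter_add_card_filter_not (s := T') (fun t => t.1 ≤ t.2)).symm
    have hc' : (T.card : ℝ) = T'.card := by exact_mod_cast hc.symm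
    linarith
  have hfin : S.Finite := by
    by_contra hinf
    have hinf' : S.Infinite := hinf
    obtain ⟨T, hT, hc⟩ := hinf'.exists_subset_card_eq (⌊B⌋₊ + 1)
    have := key T (fun t ht => hT ht)
    rw [hc] at this
    push_cast at this
    linarith [Nat.lt_floor_add_one B]
  refine ⟨hfin, ?_⟩
  rw [Set.ncard_eq_toFinset_card _ hfin]
  apply key
  intro t ht'
  exact (Set.Finite.mem_toFinset hfin).mp ht'

end Pool.Agent.Lib.Pabc2
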