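import Mathlib
import Pool.Agent.Lib.Pabc2.Final2

open Finset Filter Topology

namespace Pool.Agent.Lib.Pabc2

theorem main_range (A : ℝ) (hA' : 0 < A) :
    ∃ c : ℝ, 0 < c ∧ ∀ᶠ n : ℕ in atTop, ∀ T : Finset (ℕ × ℕ),
      (∀ t ∈ T, IsT t ∧ rd t ≤ n ∧ ht t ≤ (n : ℝ) ^ (c / Real.log (Real.log n))) →
      2 * (T.card : ℝ) ≤ (n : ℝ) / Real.log n ^ A := by
  have hA := Acon_pos
  set b : ℝ := A + 1 + 81 * Acon with hb
  have hb0 : 0 < b := by positivity
  refine ⟨1 / (10 * b), by positivity, ?_⟩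
  have hlim : Tendsto (fun n : ℕ => Real.log (n : ℝ)) atTop atTop :=
    Real.tendsto_log_atTop.comp tendsto_natCast_atTop_atTop
  set K0 : ℝ := (((⌊Real.exp 1000⌋₊ + 1) * (⌊Real.exp 1000⌋₊ + 1) : ℕ) : ℝ) with hK0
  have hK00 : 0 ≤ K0 := Nat.cast_nonneg _
  -- eventual inequalities in x
  have v1 : ∀ᶠ x : ℝ in atTop, 2 * K0 * (x ^ A * Real.exp (-(1 * x ^ (1 : ℝ)))) ≤ 1 / 3 := by
    have := (tendsto_rpow_exp A 1 1 one_pos one_pos).const_mul (2 * K0)
    rw [mul_zero] at this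
    filter_upwards [this.eventually (gt_mem_nhds (show (0 : ℝ) < 1 / 3 by norm_num))] with x hx
    exact hx.le
  have v2 : ∀ᶠ x : ℝ in atTop, (6 * Real.exp 2) *
      (x ^ (A + 108) * Real.exp (-(1 / 5 * x ^ (1 : ℝ)))) ≤ 1 / 3 := by
    have := (tendsto_rpow_exp (A + 108) 1 (1 / 5) one_pos (by norm_num)).const_mul (6 * Real.exp 2)
    rw [mul_zero] at this
    filter_upwards [this.eventually (gt_mem_nhds (show (0 : ℝ) < 1 / 3 by norm_num))] with x hx
    exact hx.le
  filter_upwards [hlim.eventually v1, hlim.eventually v2,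
    hlim.eventually (eventually_ge_atTop (6 * 909)), eventually_ge_atTop 1] with
    n k1 k2 k4 hn T hT
  set x := Real.log (n : ℝ) with hx
  have hx0 : 0 < x := by linarith
  have hx1 : 1 ≤ x := by linarith
  have hn0 : (0 : ℝ) < n := by exact_mod_cast hn
  have hexp : Real.exp x = n := Real.exp_log hn0
  have hlx : 1 ≤ Real.log x := by
    rw [Real.le_log_iff_exp_le hx0]
    linarith [Real.exp_one_lt_d9]
  have hlx0 : 0 < Real.log x := by linarith
  set k : ℝ := b * Real.log x with hk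
  set s : ℝ := Real.exp (x / (10 * b * Real.log x)) with hs
  have hs0 : 0 < s := Real.exp_pos _
  have hsH : (n : ℝ) ^ (1 / (10 * b) / Real.log x) = s := by
    rw [Real.rpow_def_of_pos hn0, ← hx, hs]
    congr 1
    field_simp
  rw [hsH] at hT
  set Z : ℝ := Real.exp (11 / 15 * x) with hZ
  have hs1 : 1 ≤ s := by
    rw [hs]
    apply Real.one_le_exp
    positivity
  have hsk : s ^ k = Real.exp (x / 10) := by
    rw [hs, ← Real.exp_mul]
    congr 1
    rw [hk]
    field_simp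
  have hZ3 : ((n : ℝ) * s ^ k) ^ 2 ≤ Z ^ 3 := by
    rw [hsk, ← hexp, ← Real.exp_add, hZ, ← Real.exp_nat_mul, ← Real.exp_nat_mul]
    apply le_of_eq
    congr 1
    push_cast
    ring
  have he1 : (1 : ℝ) ≤ Real.exp 1 := Real.one_le_exp (by norm_num)
  have hc := count2 n T k (Real.exp 1) s s⁻¹ s Z he1 hs1 (inv_pos.mpr hs0) (Real.exp_pos _).le
    hZ3 hT
  have hM : ∑ p ∈ Nat.primesLE n, 1 / (p : ℝ) ≤ 27 * Real.log x := by
    have h1 := mertens n
    have h2 := one_add_log_le (show (3 : ℝ) ≤ x by linarith)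
    rw [← hx] at h1
    linarith
  have hX : 0 < x ^ A := Real.rpow_pos_of_pos hx0 _
  rw [le_div_iff₀ hX]
  -- first term
  have t1 : (Real.exp 1 ^ k)⁻¹ *
      (n * Real.exp (Acon * Real.exp 1 * ∑ p ∈ Nat.primesLE n, 1 / (p : ℝ))) * x ^ A ≤ n / x := by
    have h1 : Acon * Real.exp 1 * ∑ p ∈ Nat.primesLE n, 1 / (p : ℝ) ≤ 81 * Acon * Real.log x := by
      have e3 : Real.exp 1 ≤ 3 := by linarith [Real.exp_one_lt_d9]
      calc Acon * Real.exp 1 * ∑ p ∈ Nat.primesLE n, 1 / (p : ℝ) ≤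
          Acon * Real.exp 1 * (27 * Real.log x) := mul_le_mul_of_nonneg_left hM (by positivity)
        _ ≤ Acon * 3 * (27 * Real.log x) := by gcongr
        _ = 81 * Acon * Real.log x := by ring
    have h2 : (Real.exp 1 ^ k)⁻¹ = Real.exp (-(b * Real.log x)) := by
      rw [← Real.exp_mul, ← Real.exp_neg, hk]
      congr 1
      ring
    have h3 : x ^ A = Real.exp (A * Real.log x) := by
      rw [Real.rpow_def_of_pos hx0, mul_comm]
    have h4 : (n : ℝ) / x = n * Real.exp (-Real.log x) := by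
      rw [Real.exp_neg, Real.exp_log hx0, div_eq_mul_inv]
    rw [h2, h3, h4]
    calc Real.exp (-(b * Real.log x)) *
        (n * Real.exp (Acon * Real.exp 1 * ∑ p ∈ Nat.primesLE n, 1 / (p : ℝ))) *
          Real.exp (A * Real.log x)
        = n * (Real.exp (-(b * Real.log x)) *
          Real.exp (Acon * Real.exp 1 * ∑ p ∈ Nat.primesLE n, 1 / (p : ℝ)) *
          Real.exp (A * Real.log x)) := by ring
      _ = n * Real.exp (-(b * Real.log x) +
          Acon * Real.exp 1 * ∑ p ∈ Nat.primesLE n, 1 / (p : ℝ) + A * Real.log x) := by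
          rw [← Real.exp_add, ← Real.exp_add]
      _ ≤ n * Real.exp (-Real.log x) := by
          apply mul_le_mul_of_nonneg_left _ hn0.le
          apply Real.exp_le_exp.mpr
          rw [hb]
          nlinarith
  have t2 : Z * Real.exp (2 * s * s⁻¹) *
      Real.exp (4 / (s * s⁻¹) * ∑ p ∈ Nat.primesLE n, 1 / (p : ℝ)) ≤
      Real.exp 2 * (Real.exp (11 / 15 * x) * x ^ (108 : ℝ)) := by
    have h1 : 2 * s * s⁻¹ = 2 := by field_simp
    have h2 : s * s⁻¹ = 1 := by field_simp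
    rw [h1, h2, div_one]
    have h3 : Real.exp (4 * ∑ p ∈ Nat.primesLE n, 1 / (p : ℝ)) ≤ x ^ (108 : ℝ) := by
      rw [Real.rpow_def_of_pos hx0]
      apply Real.exp_le_exp.mpr
      linarith
    calc Z * Real.exp 2 * Real.exp (4 * ∑ p ∈ Nat.primesLE n, 1 / (p : ℝ)) ≤
        Z * Real.exp 2 * x ^ (108 : ℝ) := mul_le_mul_of_nonneg_left h3 (by positivity)
      _ = _ := by rw [hZ]; ring
  -- final assembly
  have s0 : 2 * K0 * x ^ A ≤ n / 3 := by
    rw [Real.rpow_one, one_mul, Real.exp_neg, hexp] at k1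
    have e : 2 * K0 * x ^ A = 2 * K0 * (x ^ A * (n : ℝ)⁻¹) * n := by field_simp
    rw [e]
    have := mul_le_mul_of_nonneg_right k1 hn0.le
    linarith
  have s1 : 2 * (909 * ((Real.exp 1 ^ k)⁻¹ *
      (n * Real.exp (Acon * Real.exp 1 * ∑ p ∈ Nat.primesLE n, 1 / (p : ℝ))))) * x ^ A ≤ n / 3 := by
    have e1 : 2 * (909 * ((Real.exp 1 ^ k)⁻¹ *
      (n * Real.exp (Acon * Real.exp 1 * ∑ p ∈ Nat.primesLE n, 1 / (p : ℝ))))) * x ^ A =
      2 * 909 * ((Real.exp 1 ^ k)⁻¹ *
      (n * Real.exp (Acon * Real.exp 1 * ∑ p ∈ Nat.primesLE n, 1 / (p : ℝ))) * x ^ A) := by ring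
    rw [e1]
    calc _ ≤ 2 * 909 * ((n : ℝ) / x) := mul_le_mul_of_nonneg_left t1 (by norm_num)
      _ = (2 * 909 / x) * n := by ring
      _ ≤ (1 / 3) * n := by
        apply mul_le_mul_of_nonneg_right _ hn0.le
        rw [div_le_iff₀ hx0]
        linarith
      _ = n / 3 := by ring
  have s2 : 2 * (3 * (Z * Real.exp (2 * s * s⁻¹) *
      Real.exp (4 / (s * s⁻¹) * ∑ p ∈ Nat.primesLE n, 1 / (p : ℝ)))) * x ^ A ≤ n / 3 := by
    calc _ ≤ 2 * (3 * (Real.exp 2 * (Real.exp (11 / 15 * x) * x ^ (108 : ℝ)))) * x ^ A := by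
          gcongr
      _ = 6 * Real.exp 2 * (x ^ (A + 108) * Real.exp (-(4 / 15 * x))) * n := by
          rw [Real.rpow_add hx0, ← hexp]
          have : Real.exp (11 / 15 * x) = Real.exp (-(4 / 15 * x)) * Real.exp x := by
            rw [← Real.exp_add]
            congr 1
            ring
          rw [this]
          ring
      _ ≤ 6 * Real.exp 2 * (x ^ (A + 108) * Real.exp (-(1 / 5 * x ^ (1 : ℝ)))) * n := by
          have : Real.exp (-(4 / 15 * x)) ≤ Real.exp (-(1 / 5 * x ^ (1 : ℝ))) := by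
            apply Real.exp_le_exp.mpr
            rw [Real.rpow_one]
            linarith
          gcongr
      _ ≤ 1 / 3 * n := mul_le_mul_of_nonneg_right k2 hn0.le
      _ = n / 3 := by ring
  have hc' := mul_le_mul_of_nonneg_right hc hX.le
  nlinarith [s0, s1, s2, hc']

end Pool.Agent.Lib.Pabc2
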