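import Mathlib
import Pool.Agent.Lib.Pabc2.Final

open Filter

namespace Pool.Agent.Results.MP_2ec8a3_nt.RadicalCount

/-- The radical of `n`: the product of the distinct primes dividing `n`. -/
def rad (n : ℕ) : ℕ := ∏ p ∈ n.primeFactors, p

/-- `(a, b, c)` is an abc-triple: pairwise coprime positive integers with `a + b = c`. -/
def AbcTriple (a b c : ℕ) : Prop :=
  0 < a ∧ 0 < b ∧ 0 < c ∧ a.Coprime b ∧ a.Coprime c ∧ b.Coprime c ∧ a + b = c

/-- The set of all abc-triples `(a, b, c)` with `rad (abc) ≤ Y`; there is no restriction on the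
size of `c`. -/
def triples (Y : ℕ) : Set (ℕ × ℕ × ℕ) :=
  {t | AbcTriple t.1 t.2.1 t.2.2 ∧ rad (t.1 * t.2.1 * t.2.2) ≤ Y}

/-- There is a constant `C` such that, for all large `Y`, there are only finitely many abc-triples
with radical at most `Y`, and their number is at most `Y (log log Y)^C / log Y`. -/
theorem result : ∃ C : ℝ, ∀ᶠ Y : ℕ in atTop,
    (triples Y).Finite ∧
      ((triples Y).ncard : ℝ) ≤ (Y : ℝ) * Real.log (Real.log Y) ^ C / Real.log Y := by
  refine ⟨19 + 162 * Pool.Agent.Lib.Pabc2.Acon, ?_⟩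
  filter_upwards [Pool.Agent.Lib.Pabc2.pairSet_count] with Y hY
  obtain ⟨hfin, hcard⟩ := hY
  set f : ℕ × ℕ × ℕ → ℕ × ℕ := fun t => (t.1, t.2.1) with hf
  have hinj : Set.InjOn f (triples Y) := by
    rintro ⟨a, b, c⟩ ht ⟨a', b', c'⟩ ht' heq
    simp only [hf, Prod.mk.injEq] at heq
    obtain ⟨rfl, rfl⟩ := heq
    have h1 := ht.1.2.2.2.2.2.2
    have h2 := ht'.1.2.2.2.2.2.2
    simp only at h1 h2
    rw [← h1, ← h2]
  have hmaps : f '' triples Y ⊆ Pool.Agent.Lib.Pabc2.PairSet Y := by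
    rintro _ ⟨⟨a, b, c⟩, ht, rfl⟩
    obtain ⟨⟨h1, h2, _, h3, _, _, h4⟩, h5⟩ := ht
    simp only at h1 h2 h3 h4 h5
    refine ⟨h1, h2, h3, ?_⟩
    simp only [hf]
    rw [h4]
    exact h5
  have hfin' : (f '' triples Y).Finite := hfin.subset hmaps
  refine ⟨Set.Finite.of_finite_image hfin' hinj, ?_⟩
  rw [← hinj.ncard_image]
  refine le_trans ?_ hcard
  exact_mod_cast Set.ncard_le_ncard hmaps hfin

end Pool.Agent.Results.MP_2ec8a3_nt.RadicalCount
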